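import Mathlib
import Pool.Agent.Q187.Sim.CIFS

set_option autoImplicit false

/-!
# Conformal iterated function systems on the line and their dimension spectra
-/

open Filter Topology Set MeasureTheory


namespace Pool.Agent.Q187.Mir

open Pool.Agent.Q187.Sim (comp)

/-- A conformal iterated function system on `ℝ ^ d`, `d = 1`, with alphabet `E`. (A conformal
homeomorphism between open subsets of the line is a diffeomorphism; here all maps are even of class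
`C ^ ∞`. The word `ω 0 ⋯ ω (n - 1)` acts by `comp u ω n = u (ω 0) ∘ ⋯ ∘ u (ω (n - 1))`.) -/
structure CIFS (E : Type) where
  /-- the compact set -/
  X : Set ℝ
  /-- the open set -/
  V : Set ℝ
  /-- the maps -/
  u : E → ℝ → ℝ
  nonempty_X : X.Nonempty
  isCompact_X : IsCompact X
  closure_interior_X : closure (interior X) = X
  mapsTo_X : ∀ a, MapsTo (u a) X X
  isOpen_V : IsOpen V
  isConnected_V : IsConnected V
  isBounded_V : Bornology.IsBounded V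
  subset_V : X ⊆ V
  dist_V : ∃ ρ : ℝ, 0 < ρ ∧ ∀ x ∈ X, ∀ y, y ∉ V → ρ ≤ |x - y|
  mapsTo_V : ∀ a, MapsTo (u a) V V
  injOn_V : ∀ a, InjOn (u a) V
  isOpen_image : ∀ a, IsOpen (u a '' V)
  smooth : ∀ a, ContDiffOn ℝ (⊤ : ℕ∞) (u a) V
  deriv_ne : ∀ a, ∀ x ∈ V, deriv (u a) x ≠ 0
  cone : ∃ c : ℝ, 0 < c ∧ ∀ x ∈ X, ∀ r ∈ Ioo (0 : ℝ) 1, c ≤ (volume (X ∩ Metric.ball x r)).toReal / r ^ 1
  open_set : ∀ a b, a ≠ b → Disjoint (u a '' interior X) (u b '' interior X)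
  contraction : ∃ s : ℝ, s < 1 ∧ ∀ a, ∀ x ∈ V, |deriv (u a) x| ≤ s
  null : ∀ ε : ℝ, 0 < ε → {a | ∃ x ∈ V, ε ≤ |deriv (u a) x|}.Finite
  distortion : ∃ C : ℝ, 1 ≤ C ∧ ∀ (ω : ℕ → E) (n : ℕ), ∀ x ∈ V, ∀ y ∈ V,
    |deriv (comp u ω n) x| ≤ C * |deriv (comp u ω n) y|

/-- the limit set of the subsystem given by a subalphabet: all limits of
`u (ω 0) ∘ ⋯ ∘ u (ω (n - 1)) (x₀)`, which do not depend on `x₀` in `X` -/
def CIFS.limitSet {E : Type} (U : CIFS E) (A : Set E) : Set ℝ :=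
  {p | ∃ ω : ℕ → E, (∀ n, ω n ∈ A) ∧ ∀ x₀ ∈ U.X, Tendsto (fun n => comp U.u ω n x₀) atTop (𝓝 p)}

/-- the dimension spectrum -/
noncomputable def CIFS.spectrum {E : Type} (U : CIFS E) : Set ℝ :=
  {t | ∃ A : Set E, t = (dimH (U.limitSet A)).toReal}

end Pool.Agent.Q187.Mir
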