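import Mathlib
import Pool.Agent.Q187.Code
import Pool.Agent.Q187.Sim.CIFS
import Pool.Agent.Q187.Exp.Cov

set_option autoImplicit false

/-!
# Systems of maps of the unit interval whose slopes depend on two letters

The map `u e` is affine with slope `c e e'` on the image of `u e'`. The dimension of the limit sets
is determined by the matrices `c e e' ^ s`.
-/

open Filter Topology Set MeasureTheory MeasureTheory.Measure Pool.Agent.Q187.Code Pool.Agent.Q187.Exp
open scoped ENNReal NNReal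

namespace Pool.Agent.Q187.Mir

open Pool.Agent.Q187.Sim (comp)

/-- a system whose slopes depend on two letters -/
structure Mk (E : Type) where
  /-- the maps -/
  u : E → ℝ → ℝ
  /-- the slopes -/
  c : E → E → ℝ
  /-- lower bounds of the slopes -/
  m : E → ℝ
  /-- upper bounds of the slopes -/
  M : E → ℝ
  c_pos : ∀ e e', 0 < c e e'
  c_le : ∀ e e', c e e' ≤ 1 / 4
  m_pos : ∀ e, 0 < m e
  M_le : ∀ e, M e ≤ 1 / 4
  mem : ∀ e, MapsTo (u e) (Icc 0 1) (Icc 0 1)
  aff : ∀ e e', ∀ x ∈ Icc (0 : ℝ) 1, ∀ y ∈ Icc (0 : ℝ) 1,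
    u e (u e' x) - u e (u e' y) = c e e' * (u e' x - u e' y)
  low : ∀ e, ∀ x ∈ Icc (0 : ℝ) 1, ∀ y ∈ Icc (0 : ℝ) 1, m e * |x - y| ≤ |u e x - u e y|
  up : ∀ e, ∀ x ∈ Icc (0 : ℝ) 1, ∀ y ∈ Icc (0 : ℝ) 1, |u e x - u e y| ≤ M e * |x - y|
  sep : ∀ e e', e ≠ e' → ∃ g : ℝ, 0 < g ∧ ∀ x ∈ Icc (0 : ℝ) 1, ∀ y ∈ Icc (0 : ℝ) 1,
    g ≤ |u e x - u e' y|

variable {E : Type} (S : Mk E)

namespace Mk

lemma M_nonneg (e : E) : 0 ≤ S.M e := by
  have h1 := S.low e 0 ⟨le_refl _, zero_le_one⟩ 1 ⟨zero_le_one, le_refl _⟩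
  have h2 := S.up e 0 ⟨le_refl _, zero_le_one⟩ 1 ⟨zero_le_one, le_refl _⟩
  have h3 := S.m_pos e
  norm_num at h1 h2
  linarith

lemma comp_mem (ω : ℕ → E) (n : ℕ) {x : ℝ} (hx : x ∈ Icc (0 : ℝ) 1) :
    comp S.u ω n x ∈ Icc (0 : ℝ) 1 := by
  induction n generalizing x with
  | zero => exact hx
  | succ n ih => exact ih (S.mem _ hx)

lemma comp_up (ω : ℕ → E) (n : ℕ) {x y : ℝ} (hx : x ∈ Icc (0 : ℝ) 1) (hy : y ∈ Icc (0 : ℝ) 1) :
    |comp S.u ω n x - comp S.u ω n y| ≤ (1 / 4) ^ n * |x - y| := by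
  induction n generalizing x y with
  | zero => simp [comp]
  | succ n ih =>
    show |comp S.u ω n (S.u (ω n) x) - comp S.u ω n (S.u (ω n) y)| ≤ _
    refine (ih (S.mem _ hx) (S.mem _ hy)).trans ?_
    rw [pow_succ, mul_assoc]
    refine mul_le_mul_of_nonneg_left ?_ (by positivity)
    exact (S.up _ x hx y hy).trans (mul_le_mul_of_nonneg_right (S.M_le _) (abs_nonneg _))

/-- products of slopes -/
noncomputable def CP (ω : ℕ → E) (n : ℕ) : ℝ := ∏ j ∈ Finset.range n, S.c (ω j) (ω (j + 1))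

lemma CP_pos (ω : ℕ → E) (n : ℕ) : 0 < S.CP ω n := Finset.prod_pos fun _ _ => S.c_pos _ _

lemma CP_succ (ω : ℕ → E) (n : ℕ) : S.CP ω (n + 1) = S.CP ω n * S.c (ω n) (ω (n + 1)) :=
  Finset.prod_range_succ _ _

lemma CP_le (ω : ℕ → E) (n : ℕ) : S.CP ω n ≤ (1 / 4) ^ n := by
  induction n with
  | zero => simp [CP]
  | succ n ih =>
    rw [CP_succ, pow_succ]
    exact mul_le_mul ih (S.c_le _ _) (S.c_pos _ _).le (by positivity)

lemma comp_sub (ω : ℕ → E) (n : ℕ) {x y : ℝ} (hx : x ∈ Icc (0 : ℝ) 1) (hy : y ∈ Icc (0 : ℝ) 1) :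
    comp S.u ω (n + 1) x - comp S.u ω (n + 1) y = S.CP ω n * (S.u (ω n) x - S.u (ω n) y) := by
  induction n generalizing x y with
  | zero => simp [comp, CP]
  | succ n ih =>
    show comp S.u ω (n + 1) (S.u (ω (n + 1)) x) - comp S.u ω (n + 1) (S.u (ω (n + 1)) y) = _
    rw [ih (S.mem _ hx) (S.mem _ hy), S.aff _ _ x hx y hy, CP_succ]
    ring

lemma comp_congr {ω ω' : ℕ → E} {n : ℕ} (h : ∀ j < n, ω j = ω' j) :
    comp S.u ω n = comp S.u ω' n := by
  induction n with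
  | zero => rfl
  | succ n ih =>
    show comp S.u ω n ∘ S.u (ω n) = comp S.u ω' n ∘ S.u (ω' n)
    rw [ih fun j hj => h j (by omega), h n (Nat.lt_succ_self n)]

lemma comp_shift (ω : ℕ → E) (n : ℕ) (x : ℝ) :
    comp S.u ω (n + 1) x = S.u (ω 0) (comp S.u (fun j => ω (j + 1)) n x) := by
  induction n generalizing x with
  | zero => rfl
  | succ n ih =>
    show comp S.u ω (n + 1) (S.u (ω (n + 1)) x) = _
    rw [ih]
    rfl

lemma zero_mem : (0 : ℝ) ∈ Icc (0 : ℝ) 1 := ⟨le_refl _, zero_le_one⟩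

/-- the coded point -/
noncomputable def pt (ω : ℕ → E) : ℝ := limUnder atTop fun n => comp S.u ω n 0

lemma abs_le_one {x y : ℝ} (hx : x ∈ Icc (0 : ℝ) 1) (hy : y ∈ Icc (0 : ℝ) 1) : |x - y| ≤ 1 := by
  rw [abs_le]
  constructor <;> linarith [hx.1, hx.2, hy.1, hy.2]

lemma pt_tendsto0 (ω : ℕ → E) : Tendsto (fun n => comp S.u ω n 0) atTop (𝓝 (S.pt ω)) := by
  have hc : CauchySeq fun n => comp S.u ω n 0 := by
    refine cauchySeq_of_le_geometric (1 / 4) 1 (by norm_num) fun n => ?_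
    rw [Real.dist_eq, one_mul]
    show |comp S.u ω n 0 - comp S.u ω n (S.u (ω n) 0)| ≤ _
    refine (S.comp_up ω n zero_mem (S.mem _ zero_mem)).trans ?_
    have := abs_le_one zero_mem (S.mem (ω n) zero_mem)
    calc (1 / 4 : ℝ) ^ n * |0 - S.u (ω n) 0| ≤ (1 / 4) ^ n * 1 := by gcongr
      _ = _ := mul_one _
  exact hc.tendsto_limUnder

lemma pt_tendsto (ω : ℕ → E) {x : ℝ} (hx : x ∈ Icc (0 : ℝ) 1) :
    Tendsto (fun n => comp S.u ω n x) atTop (𝓝 (S.pt ω)) := by
  have h1 : Tendsto (fun n => comp S.u ω n x - comp S.u ω n 0) atTop (𝓝 0) := by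
    apply squeeze_zero_norm (a := fun n : ℕ => ((1 : ℝ) / 4) ^ n)
    · intro n
      rw [Real.norm_eq_abs]
      refine (S.comp_up ω n hx zero_mem).trans ?_
      have := abs_le_one hx zero_mem
      calc (1 / 4 : ℝ) ^ n * |x - 0| ≤ (1 / 4) ^ n * 1 := by gcongr
        _ = _ := mul_one _
    · exact tendsto_pow_atTop_nhds_zero_of_lt_one (by norm_num) (by norm_num)
  have h2 := h1.add (S.pt_tendsto0 ω)
  simpa using h2

lemma pt_mem (ω : ℕ → E) : S.pt ω ∈ Icc (0 : ℝ) 1 :=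
  isClosed_Icc.mem_of_tendsto (S.pt_tendsto0 ω)
    (Eventually.of_forall fun n => S.comp_mem ω n zero_mem)

lemma pt_eq (ω : ℕ → E) : S.pt ω = S.u (ω 0) (S.pt fun j => ω (j + 1)) := by
  have h1 := (S.pt_tendsto0 ω).comp (tendsto_add_atTop_nat 1)
  refine tendsto_nhds_unique h1 ?_
  rw [tendsto_iff_dist_tendsto_zero]
  have h2 := tendsto_iff_dist_tendsto_zero.1 (S.pt_tendsto0 fun j => ω (j + 1))
  refine squeeze_zero (fun _ => dist_nonneg) (fun n => ?_) h2
  rw [Function.comp_apply, S.comp_shift, Real.dist_eq, Real.dist_eq]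
  refine (S.up _ _ (S.comp_mem _ _ zero_mem) _ (S.pt_mem _)).trans ?_
  have h3 := S.M_le (ω 0)
  have h4 := abs_nonneg (comp S.u (fun j => ω (j + 1)) n 0 - S.pt fun j => ω (j + 1))
  nlinarith

lemma pt_eq_comp (ω : ℕ → E) (n : ℕ) : S.pt ω = comp S.u ω n (S.pt fun j => ω (n + j)) := by
  induction n with
  | zero => simp [comp]
  | succ n ih =>
    rw [ih]
    show _ = comp S.u ω n (S.u (ω n) _)
    congr 1
    rw [S.pt_eq fun j => ω (n + j)]
    simp only [add_zero]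
    congr 2
    funext j
    congr 1
    ring

/-- limit sets -/
def J (A : Set E) : Set ℝ := {x | ∃ ω : ℕ → E, (∀ n, ω n ∈ A) ∧ S.pt ω = x}

lemma J_mono {A B : Set E} (h : A ⊆ B) : S.J A ⊆ S.J B := by
  rintro _ ⟨ω, h1, rfl⟩
  exact ⟨ω, fun n => h (h1 n), rfl⟩

/-- the part of the limit set starting with a letter -/
def L (A : Set E) (e : E) : Set ℝ := {x | ∃ ω : ℕ → E, (∀ n, ω n ∈ A) ∧ ω 0 = e ∧ S.pt ω = x}

lemma J_subset (A : Set E) : S.J A ⊆ ⋃ e : A, S.L A e := by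
  rintro _ ⟨ω, h, rfl⟩
  exact mem_iUnion.2 ⟨⟨ω 0, h 0⟩, ω, h, rfl, rfl⟩

lemma L_subset (A : Set E) (e : E) : S.L A e ⊆ ⋃ e' : A, S.u e '' S.L A e' := by
  rintro _ ⟨ω, h, rfl, rfl⟩
  refine mem_iUnion.2 ⟨⟨ω 1, h 1⟩, S.pt fun j => ω (j + 1), ?_, (S.pt_eq ω).symm⟩
  exact ⟨fun j => ω (j + 1), fun n => h _, rfl, rfl⟩

lemma L_sub_image (A : Set E) (e : E) : S.L A e ⊆ S.u e '' Icc 0 1 := by
  rintro _ ⟨ω, h, rfl, rfl⟩
  exact ⟨_, S.pt_mem _, (S.pt_eq ω).symm⟩

lemma ediam_L (A : Set E) (e : E) : Metric.ediam (S.L A e) ≤ ENNReal.ofReal (S.M e) := by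
  apply Metric.ediam_le
  intro x hx y hy
  obtain ⟨a, ha, rfl⟩ := S.L_sub_image A e hx
  obtain ⟨b, hb, rfl⟩ := S.L_sub_image A e hy
  rw [edist_dist, Real.dist_eq]
  apply ENNReal.ofReal_le_ofReal
  refine (S.up e a ha b hb).trans ?_
  calc S.M e * |a - b| ≤ S.M e * 1 := by
        have := abs_le_one ha hb
        have := S.M_nonneg e
        gcongr
    _ = _ := mul_one _

/-! ### upper bound -/

lemma cov_image {s : ℝ} (hs : 0 ≤ s) {A : Set ℝ} {ε : ℝ≥0∞} (h : Cov s A ε) (g : ℝ → ℝ) (c : ℝ≥0∞)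
    (hg : ∀ x ∈ A, ∀ y ∈ A, edist (g x) (g y) ≤ c * edist x y) : Cov s (g '' A) (c ^ s * ε) := by
  obtain ⟨ι, hι, t, h1, h2⟩ := h
  refine ⟨ι, hι, fun i => g '' (t i ∩ A), ?_, ?_⟩
  · rintro _ ⟨x, hx, rfl⟩
    obtain ⟨i, hi⟩ := mem_iUnion.1 (h1 hx)
    exact mem_iUnion.2 ⟨i, x, ⟨hi, hx⟩, rfl⟩
  · calc ∑' i, Metric.ediam (g '' (t i ∩ A)) ^ s ≤ ∑' i, c ^ s * Metric.ediam (t i) ^ s := by
          refine ENNReal.tsum_le_tsum fun i => ?_
          rw [← ENNReal.mul_rpow_of_nonneg _ _ hs]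
          refine ENNReal.rpow_le_rpow ?_ hs
          apply Metric.ediam_le
          rintro _ ⟨x, hx, rfl⟩ _ ⟨y, hy, rfl⟩
          refine (hg x hx.2 y hy.2).trans ?_
          gcongr
          exact Metric.edist_le_ediam_of_mem hx.1 hy.1
      _ = c ^ s * ∑' i, Metric.ediam (t i) ^ s := ENNReal.tsum_mul_left
      _ ≤ _ := by gcongr

lemma edist_u (A : Set E) (e e' : E) : ∀ x ∈ S.L A e', ∀ y ∈ S.L A e',
    edist (S.u e x) (S.u e y) ≤ ENNReal.ofReal (S.c e e') * edist x y := by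
  intro x hx y hy
  obtain ⟨a, ha, rfl⟩ := S.L_sub_image A e' hx
  obtain ⟨b, hb, rfl⟩ := S.L_sub_image A e' hy
  rw [edist_dist, edist_dist, Real.dist_eq, Real.dist_eq, ← ENNReal.ofReal_mul (S.c_pos _ _).le,
    S.aff e e' a ha b hb, abs_mul, abs_of_pos (S.c_pos _ _)]

theorem dim_le [Countable E] (A : Set E) {s : ℝ} (hs : 0 < s) (v : E → ℝ≥0∞) (K : ℝ≥0∞) (hK : K ≠ ⊤)
    (hv : ∑' e : A, v e ≠ ⊤)
    (h : ∀ e ∈ A, ∑' e' : A, ENNReal.ofReal (S.c e e') ^ s * v e' ≤ v e)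
    (hd : ∀ e ∈ A, ENNReal.ofReal (S.M e) ^ s ≤ K * v e) : dimH (S.J A) ≤ ENNReal.ofReal s := by
  have key : ∀ s' : ℝ, s < s' → dimH (S.J A) ≤ ENNReal.ofReal s' := by
    intro s' hs'
    have hs'0 : 0 < s' := hs.trans hs'
    set κ : ℝ≥0∞ := ENNReal.ofReal (1 / 4) ^ (s' - s) with hκ
    have h14 : ENNReal.ofReal (1 / 4) < 1 := by
      rw [← ENNReal.ofReal_one]
      exact (ENNReal.ofReal_lt_ofReal_iff (by norm_num)).2 (by norm_num)
    have hκ1 : κ < 1 := ENNReal.rpow_lt_one h14 (by linarith)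
    have hpow : ∀ t : ℝ, 0 < t → t ≤ 1 / 4 →
        ENNReal.ofReal t ^ s' ≤ κ * ENNReal.ofReal t ^ s := by
      intro t ht ht'
      have h0 : ENNReal.ofReal t ≠ 0 := by simpa using ht
      have e1 : ENNReal.ofReal t ^ s' = ENNReal.ofReal t ^ (s' - s) * ENNReal.ofReal t ^ s := by
        rw [← ENNReal.rpow_add _ _ h0 ENNReal.ofReal_ne_top]
        congr 1
        ring
      rw [e1]
      gcongr
      exact ENNReal.rpow_le_rpow (ENNReal.ofReal_le_ofReal ht') (by linarith)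
    have hM : ∀ e, 0 < S.M e := by
      intro e
      have h1 := S.low e 0 ⟨le_refl _, zero_le_one⟩ 1 ⟨zero_le_one, le_refl _⟩
      have h2 := S.up e 0 ⟨le_refl _, zero_le_one⟩ 1 ⟨zero_le_one, le_refl _⟩
      have h3 := S.m_pos e
      norm_num at h1 h2
      linarith
    have hcov : ∀ n : ℕ, ∀ e ∈ A, Cov s' (S.L A e) (κ ^ n * (K * v e)) := by
      intro n
      induction n with
      | zero =>
        intro e he
        refine (cov_single s' (S.L A e)).mono (le_refl _) ?_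
        rw [pow_zero, one_mul]
        calc Metric.ediam (S.L A e) ^ s' ≤ ENNReal.ofReal (S.M e) ^ s' :=
              ENNReal.rpow_le_rpow (S.ediam_L A e) hs'0.le
          _ ≤ κ * ENNReal.ofReal (S.M e) ^ s := hpow _ (hM e) (S.M_le e)
          _ ≤ 1 * (K * v e) := mul_le_mul' hκ1.le (hd e he)
          _ = _ := one_mul _
      | succ n ih =>
        intro e he
        have h1 : Cov s' (⋃ e' : A, S.u e '' S.L A e')
            (∑' e' : A, ENNReal.ofReal (S.c e e') ^ s' * (κ ^ n * (K * v e'))) :=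
          cov_iUnion fun e' => cov_image hs'0.le (ih e' e'.2) _ _ (S.edist_u A e e')
        refine h1.mono (S.L_subset A e) ?_
        calc ∑' e' : A, ENNReal.ofReal (S.c e e') ^ s' * (κ ^ n * (K * v e'))
            ≤ ∑' e' : A, κ ^ (n + 1) * K * (ENNReal.ofReal (S.c e e') ^ s * v e') := by
              refine ENNReal.tsum_le_tsum fun e' => ?_
              calc ENNReal.ofReal (S.c e e') ^ s' * (κ ^ n * (K * v e'))
                  ≤ (κ * ENNReal.ofReal (S.c e e') ^ s) * (κ ^ n * (K * v e')) := by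
                    gcongr
                    exact hpow _ (S.c_pos _ _) (S.c_le _ _)
                _ = _ := by rw [pow_succ]; ring
          _ = κ ^ (n + 1) * K * ∑' e' : A, ENNReal.ofReal (S.c e e') ^ s * v e' :=
              ENNReal.tsum_mul_left
          _ ≤ κ ^ (n + 1) * K * v e := by gcongr; exact h e he
          _ = _ := by ring
    refine dimH_le_of_cov hs'0 fun ε hε => ?_
    have hJ : ∀ n : ℕ, Cov s' (S.J A) (κ ^ n * (K * ∑' e : A, v e)) := by
      intro n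
      have h1 : Cov s' (⋃ e : A, S.L A e) (∑' e : A, κ ^ n * (K * v e)) :=
        cov_iUnion fun e => hcov n e e.2
      refine h1.mono (S.J_subset A) ?_
      rw [ENNReal.tsum_mul_left, ENNReal.tsum_mul_left]
    have hlim : Tendsto (fun n : ℕ => κ ^ n * (K * ∑' e : A, v e)) atTop (𝓝 0) := by
      have h2 := ENNReal.Tendsto.mul_const (ENNReal.tendsto_pow_atTop_nhds_zero_of_lt_one hκ1)
        (b := K * ∑' e : A, v e) (Or.inr (ENNReal.mul_ne_top hK hv))
      simpa using h2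
    obtain ⟨n, hn⟩ := (hlim.eventually (gt_mem_nhds hε)).exists
    exact (hJ n).mono (le_refl _) hn.le
  refine le_of_forall_gt_imp_ge_of_dense fun x hx => ?_
  rcases eq_or_ne x ⊤ with rfl | hx'
  · exact le_top
  · have h1 : s < x.toReal := by
      rwa [← ENNReal.ofReal_lt_iff_lt_toReal hs.le hx']
    have h2 := key _ h1
    rwa [ENNReal.ofReal_toReal hx'] at h2

/-! ### lower bound -/

theorem le_dim (A : Set E) (T : Finset E) (hne : T.Nonempty) (hTA : ∀ e ∈ T, e ∈ A) {s : ℝ}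
    (hs : 0 < s) (v : E → ℝ) (hv : ∀ e ∈ T, 0 < v e)
    (h : ∀ e ∈ T, v e ≤ ∑ e' ∈ T, S.c e e' ^ s * v e') : ENNReal.ofReal s ≤ dimH (S.J A) := by
  classical
  set m := T.card with hm
  have hm0 : 0 < m := Finset.card_pos.2 hne
  set e : ℕ → E := fun i => if hi : i < m then (T.equivFin.symm ⟨i, hi⟩ : T) else
    (T.equivFin.symm ⟨0, hm0⟩ : T) with he
  have heT : ∀ i, e i ∈ T := by
    intro i
    simp only [he]
    split_ifs
    · exact Subtype.coe_prop _
    · exact Subtype.coe_prop _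
  have heinj : ∀ i < m, ∀ j < m, e i = e j → i = j := by
    intro i hi j hj hij
    simp only [he, hi, hj, dif_pos] at hij
    have h1 := T.equivFin.symm.injective (Subtype.ext hij)
    simpa using h1
  have hsumT : ∀ F : E → ℝ, ∑ a ∈ T, F a = ∑ i ∈ Finset.range m, F (e i) := by
    intro F
    rw [← Finset.sum_coe_sort T, ← T.equivFin.symm.sum_comp, Finset.sum_range]
    apply Finset.sum_congr rfl
    intro i _
    have : e i = (T.equivFin.symm i : T) := dif_pos (show (i : ℕ) < m from i.2)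
    rw [this]
  -- constants
  obtain ⟨vm, hvm, hvm'⟩ : ∃ vm : ℝ, 0 < vm ∧ ∀ a ∈ T, vm ≤ v a := by
    obtain ⟨a, ha, h1⟩ := T.exists_min_image v hne
    exact ⟨v a, hv a ha, h1⟩
  obtain ⟨vM, hvM⟩ : ∃ vM : ℝ, ∀ a ∈ T, v a ≤ vM := by
    obtain ⟨a, ha, h1⟩ := T.exists_max_image v hne
    exact ⟨v a, h1⟩
  obtain ⟨mm, hmm, hmm'⟩ : ∃ mm : ℝ, 0 < mm ∧ ∀ a ∈ T, mm ≤ S.m a := by
    obtain ⟨a, ha, h1⟩ := T.exists_min_image S.m hne
    exact ⟨S.m a, S.m_pos a, h1⟩
  obtain ⟨δ, hδ, hgap⟩ : ∃ δ : ℝ, 0 < δ ∧ ∀ i < m, ∀ j < m, i ≠ j → ∀ x ∈ Icc (0 : ℝ) 1,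
      ∀ y ∈ Icc (0 : ℝ) 1, δ ≤ |S.u (e i) x - S.u (e j) y| := by
    have hfin : ∀ p : Fin m × Fin m, ∃ δ : ℝ, 0 < δ ∧ (p.1 ≠ p.2 → ∀ x ∈ Icc (0 : ℝ) 1,
        ∀ y ∈ Icc (0 : ℝ) 1, δ ≤ |S.u (e p.1) x - S.u (e p.2) y|) := by
      rintro ⟨i, j⟩
      by_cases hij : i = j
      · exact ⟨1, one_pos, fun h => absurd hij h⟩
      · obtain ⟨δ, h1, h2⟩ := S.sep (e i) (e j) fun h => hij (Fin.ext (heinj i i.2 j j.2 h))
        exact ⟨δ, h1, fun _ => h2⟩
    choose D hD1 hD2 using hfin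
    have : Nonempty (Fin m × Fin m) := ⟨(⟨0, hm0⟩, ⟨0, hm0⟩)⟩
    obtain ⟨p0, hp0⟩ := Finite.exists_min D
    refine ⟨D p0, hD1 _, fun i hi j hj hij x hx y hy => (hp0 (⟨i, hi⟩, ⟨j, hj⟩)).trans ?_⟩
    exact hD2 (⟨i, hi⟩, ⟨j, hj⟩) (fun h => hij (by simpa using h)) x hx y hy
  -- weights
  set N : ℕ → ℝ := fun j => ∑ i ∈ Finset.range m, S.c (e j) (e i) ^ s * v (e i) with hN
  have hNv : ∀ j, v (e j) ≤ N j := fun j => by
    have := h (e j) (heT j)
    rwa [hsumT] at this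
  have hN0 : ∀ j, 0 < N j := fun j => (hv _ (heT j)).trans_le (hNv j)
  set w : List ℕ → ℕ → ℝ := fun l i => match l with
    | [] => 1 / (m : ℝ)
    | j :: _ => S.c (e j) (e i) ^ s * v (e i) / N j with hw
  set K : List ℕ → ℕ := fun _ => m with hK
  have hterm : ∀ i j, 0 < S.c (e j) (e i) ^ s * v (e i) := fun i j =>
    mul_pos (Real.rpow_pos_of_pos (S.c_pos _ _) _) (hv _ (heT i))
  have hpos : ∀ l i, i < K l → 0 < w l i := fun l i _ => by
    cases l with
    | nil => simp only [hw]; positivity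
    | cons j l => simp only [hw]; exact div_pos (hterm i j) (hN0 j)
  have hpos' : ∀ l i, 0 < w l i := fun l i => by
    cases l with
    | nil => simp only [hw]; positivity
    | cons j l => simp only [hw]; exact div_pos (hterm i j) (hN0 j)
  have hsum : ∀ l, PS w l (K l) = 1 := fun l => by
    cases l with
    | nil =>
      simp only [PS, hw, hK, Finset.sum_const, Finset.card_range, nsmul_eq_mul]
      field_simp
    | cons j l =>
      simp only [PS, hw, hK]
      rw [← Finset.sum_div]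
      exact div_self (hN0 j).ne'
  have hwt0 : ∀ a n, 0 < wt w a n := fun a n => Finset.prod_pos fun j _ => hpos' _ _
  have hwt : ∀ a n, wt w a (n + 1) ≤ S.CP (fun j => e (a j)) n ^ s * v (e (a n)) / v (e (a 0)) := by
    intro a n
    induction n with
    | zero =>
      have h1 : wt w a 1 = 1 / m := by simp [wt, hw, hist]
      rw [h1]
      have h2 : S.CP (fun j => e (a j)) 0 = 1 := by simp [CP]
      rw [h2, Real.one_rpow, one_mul, div_self (hv _ (heT _)).ne']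
      have : (1 : ℝ) ≤ m := by exact_mod_cast hm0
      rw [div_le_one (by linarith)]
      exact this
    | succ n ih =>
      rw [wt_succ]
      have h1 : w (hist a (n + 1)) (a (n + 1)) =
          S.c (e (a n)) (e (a (n + 1))) ^ s * v (e (a (n + 1))) / N (a n) := rfl
      rw [h1, S.CP_succ, Real.mul_rpow (S.CP_pos _ _).le (S.c_pos _ _).le]
      have h2 := hv _ (heT (a n))
      have h3 := hterm (a (n + 1)) (a n)
      have h4 := hv _ (heT (a 0))
      have h5 := Real.rpow_pos_of_pos (S.CP_pos (fun j => e (a j)) n) s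
      calc wt w a (n + 1) * (S.c (e (a n)) (e (a (n + 1))) ^ s * v (e (a (n + 1))) / N (a n))
          ≤ (S.CP (fun j => e (a j)) n ^ s * v (e (a n)) / v (e (a 0))) *
            (S.c (e (a n)) (e (a (n + 1))) ^ s * v (e (a (n + 1))) / v (e (a n))) := by
            apply mul_le_mul ih _ (div_pos h3 (hN0 _)).le (by positivity)
            exact div_le_div_of_nonneg_left h3.le h2 (hNv _)
        _ = _ := by
            field_simp
  have hwt' : ∀ a n, wt w a (n + 1) ≤ vM / vm * S.CP (fun j => e (a j)) n ^ s := by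
    intro a n
    refine (hwt a n).trans ?_
    have h5 := Real.rpow_pos_of_pos (S.CP_pos (fun j => e (a j)) n) s
    have h6 := hv _ (heT (a 0))
    have h7 := hv _ (heT (a n))
    calc S.CP (fun j => e (a j)) n ^ s * v (e (a n)) / v (e (a 0))
        ≤ S.CP (fun j => e (a j)) n ^ s * vM / vm := by
          have h8 := hvM _ (heT (a n))
          apply div_le_div₀ (by nlinarith) (by nlinarith) hvm (hvm' _ (heT _))
      _ = _ := by ring
  have hvMpos : 0 < vM := by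
    obtain ⟨a, ha⟩ := hne
    exact (hv a ha).trans_le (hvM a ha)
  set C : ℝ := max ((1 / δ) ^ s) (vM / vm * (1 / (mm * δ)) ^ s) with hC
  have hC0 : 0 ≤ C := le_max_of_le_left (by positivity)
  have key := dim_ge (w := w) (K := K) hpos hsum (X := ℝ) (fun a => S.pt fun j => e (a j))
    ⟨s, hs.le⟩ (by exact_mod_cast hs) ⟨C, hC0⟩ ?_ ?_
  · rw [ENNReal.ofReal_eq_coe_nnreal hs.le]
    refine key.trans (dimH_mono ?_)
    rintro _ ⟨a, _, rfl⟩
    exact ⟨fun j => e (a j), fun n => hTA _ (heT _), rfl⟩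
  · intro a ha
    rw [← tendsto_add_atTop_iff_nat 1]
    have h1 : Tendsto (fun n : ℕ => vM / vm * (((1 : ℝ) / 4) ^ s) ^ n) atTop (𝓝 0) := by
      have h2 := tendsto_pow_atTop_nhds_zero_of_lt_one (r := ((1 : ℝ) / 4) ^ s) (by positivity)
        (Real.rpow_lt_one (by norm_num) (by norm_num) hs)
      simpa using h2.const_mul (vM / vm)
    refine squeeze_zero (fun n => (hwt0 a _).le) (fun n => (hwt' a n).trans ?_) h1
    refine mul_le_mul_of_nonneg_left ?_ (by positivity)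
    rw [← Real.rpow_natCast, ← Real.rpow_mul (by norm_num), mul_comm, Real.rpow_mul (by norm_num),
      Real.rpow_natCast]
    exact Real.rpow_le_rpow (S.CP_pos _ _).le (S.CP_le _ _) hs.le
  · intro a a' ha ha' n hn hne'
    set ω : ℕ → E := fun j => e (a j) with hω
    set ω' : ℕ → E := fun j => e (a' j) with hω'
    have hagree : ∀ j < n, ω j = ω' j := fun j hj => by
      show e (a j) = e (a' j)
      rw [hn j hj]
    show wt w a n ≤ C * dist (S.pt ω) (S.pt ω') ^ s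
    have hX : ∀ ξ : ℕ → E, S.pt (fun j => ξ (n + j)) = S.u (ξ n) (S.pt fun j => ξ (n + (j + 1))) := by
      intro ξ
      rw [S.pt_eq fun j => ξ (n + j)]
      simp only [add_zero]
    have hXY : δ ≤ |S.pt (fun j => ω (n + j)) - S.pt (fun j => ω' (n + j))| := by
      rw [hX ω, hX ω']
      exact hgap (a n) (ha n) (a' n) (ha' n) hne' _ (S.pt_mem _) _ (S.pt_mem _)
    cases n with
    | zero =>
      have h1 : wt w a 0 = 1 := by simp [wt]
      rw [h1]
      have h2 : δ ≤ dist (S.pt ω) (S.pt ω') := by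
        rw [Real.dist_eq]
        simpa using hXY
      calc (1 : ℝ) = (1 / δ) ^ s * δ ^ s := by
            rw [← Real.mul_rpow (by positivity) hδ.le, one_div_mul_cancel hδ.ne', Real.one_rpow]
        _ ≤ C * dist (S.pt ω) (S.pt ω') ^ s := by
            apply mul_le_mul (le_max_left _ _) (Real.rpow_le_rpow hδ.le h2 hs.le) (by positivity) hC0
    | succ n =>
      have h1 : S.pt ω - S.pt ω' = S.CP ω n * (S.u (ω n) (S.pt fun j => ω (n + 1 + j)) -
          S.u (ω n) (S.pt fun j => ω' (n + 1 + j))) := by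
        rw [S.pt_eq_comp ω (n + 1), S.pt_eq_comp ω' (n + 1), ← S.comp_congr hagree,
          S.comp_sub ω n (S.pt_mem _) (S.pt_mem _)]
      have h2 := S.low (ω n) _ (S.pt_mem fun j => ω (n + 1 + j)) _ (S.pt_mem fun j => ω' (n + 1 + j))
      have h3 := hmm' (ω n) (heT _)
      have hCP := S.CP_pos ω n
      have h4 : S.CP ω n * (mm * δ) ≤ dist (S.pt ω) (S.pt ω') := by
        rw [Real.dist_eq, h1, abs_mul, abs_of_pos hCP]
        refine mul_le_mul_of_nonneg_left (le_trans ?_ h2) hCP.le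
        exact mul_le_mul h3 hXY hδ.le (hmm.le.trans h3)
      have h5 : S.CP ω n ≤ 1 / (mm * δ) * dist (S.pt ω) (S.pt ω') := by
        rw [div_mul_eq_mul_div, one_mul, le_div_iff₀ (by positivity)]
        exact h4
      calc wt w a (n + 1) ≤ vM / vm * S.CP ω n ^ s := hwt' a n
        _ ≤ vM / vm * (1 / (mm * δ) * dist (S.pt ω) (S.pt ω')) ^ s := by
            refine mul_le_mul_of_nonneg_left (Real.rpow_le_rpow hCP.le h5 hs.le) (by positivity)
        _ = vM / vm * (1 / (mm * δ)) ^ s * dist (S.pt ω) (S.pt ω') ^ s := by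
            rw [Real.mul_rpow (by positivity) dist_nonneg]
            ring
        _ ≤ C * dist (S.pt ω) (S.pt ω') ^ s := by
            refine mul_le_mul_of_nonneg_right (le_max_right _ _) ?_
            exact Real.rpow_nonneg dist_nonneg _

end Mk

end Pool.Agent.Q187.Mir
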