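import Mathlib

set_option autoImplicit false

/-!
# Numbers for the system with a self-mirror spectrum
-/

open Set

namespace Pool.Agent.Q187.Mir

/-- weight of a repetition -/
noncomputable def A0 : ℝ := 100 / 2501
/-- weight of a change -/
noncomputable def D0 : ℝ := 2499 / 2501
/-- total weight of the tail at exponent one -/
noncomputable def A1 : ℝ := (1 - A0) / (1 - A0 + D0)
/-- total weight of the tail at exponent three -/
noncomputable def A2 : ℝ := (1 - A0 ^ 3 - D0 ^ 3) / (1 - A0 ^ 3 + D0 ^ 3)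

lemma A0_sq : A0 ^ 2 + D0 ^ 2 = 1 := by unfold A0 D0; norm_num

/-- parameters -/
structure Par where
  /-- ratio of the weights of the tail -/
  σ : ℝ
  /-- the exponent -/
  n : ℕ
  σ_ge : 4 / 5 ≤ σ
  σ_lt : σ < 1
  eq : (A1 * (1 - σ)) ^ 3 = A2 * (1 - σ ^ 3)
  n_pos : 1 ≤ n
  hD : D0 ^ n ≤ 1 / 10
  hσ : σ ^ n ≤ 1 / 2
  hc : (A1 * (1 - σ)) ^ n ≤ 1 / 64

lemma A1_pos : 0 < A1 := by unfold A1 A0 D0; norm_num
lemma A1_lt : A1 < 1 / 2 := by unfold A1 A0 D0; norm_num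
lemma A2_pos : 0 < A2 := by unfold A2 A0 D0; norm_num
lemma A2_A1 : 61 * A2 ≤ A1 ^ 3 := by unfold A2 A1 A0 D0; norm_num

lemma exists_σ : ∃ σ : ℝ, 4 / 5 ≤ σ ∧ σ < 1 ∧ (A1 * (1 - σ)) ^ 3 = A2 * (1 - σ ^ 3) := by
  have hc : ContinuousOn (fun x : ℝ => A1 ^ 3 * (1 - x) ^ 2 - A2 * (1 + x + x ^ 2))
      (Icc (4 / 5) 1) := by fun_prop
  have h1 := intermediate_value_Icc' (show (4 / 5 : ℝ) ≤ 1 by norm_num) hc
  have h2 : (0 : ℝ) ∈ Icc ((fun x : ℝ => A1 ^ 3 * (1 - x) ^ 2 - A2 * (1 + x + x ^ 2)) 1)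
      ((fun x : ℝ => A1 ^ 3 * (1 - x) ^ 2 - A2 * (1 + x + x ^ 2)) (4 / 5)) := by
    constructor
    · have := A2_pos
      simp only
      linarith
    · have := A2_A1
      simp only
      norm_num
      linarith
  obtain ⟨σ, hσ, h3⟩ := h1 h2
  simp only at h3
  have hne : σ ≠ 1 := by
    rintro rfl
    have := A2_pos
    norm_num at h3
    linarith
  refine ⟨σ, hσ.1, lt_of_le_of_ne hσ.2 hne, ?_⟩
  have : (A1 * (1 - σ)) ^ 3 - A2 * (1 - σ ^ 3) =
      (1 - σ) * (A1 ^ 3 * (1 - σ) ^ 2 - A2 * (1 + σ + σ ^ 2)) := by ring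
  rw [h3, mul_zero] at this
  linarith

lemma exists_par : Nonempty Par := by
  obtain ⟨σ, h1, h2, h3⟩ := exists_σ
  have hD0 : D0 < 1 := by unfold D0; norm_num
  have hD0' : 0 ≤ D0 := by unfold D0; norm_num
  obtain ⟨n1, hn1⟩ := exists_pow_lt_of_lt_one (show (0 : ℝ) < 1 / 10 by norm_num) hD0
  obtain ⟨n2, hn2⟩ := exists_pow_lt_of_lt_one (show (0 : ℝ) < 1 / 2 by norm_num) h2
  have hc0 : A1 * (1 - σ) < 1 := by
    have := A1_lt
    have := A1_pos
    nlinarith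
  have hc0' : 0 ≤ A1 * (1 - σ) := mul_nonneg A1_pos.le (by linarith)
  obtain ⟨n3, hn3⟩ := exists_pow_lt_of_lt_one (show (0 : ℝ) < 1 / 64 by norm_num) hc0
  refine ⟨⟨σ, n1 + n2 + n3 + 1, h1, h2, h3, by omega, ?_, ?_, ?_⟩⟩
  · exact (pow_le_pow_of_le_one hD0' hD0.le (by omega)).trans hn1.le
  · exact (pow_le_pow_of_le_one (by linarith) h2.le (by omega)).trans hn2.le
  · exact (pow_le_pow_of_le_one hc0' hc0.le (by omega)).trans hn3.le

/-! ### subsums of geometric series -/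

/-- the remainders of the greedy expansion -/
noncomputable def rem (θ y : ℝ) : ℕ → ℝ
  | 0 => y
  | t + 1 => by
    classical
    exact if θ ^ t ≤ rem θ y t then rem θ y t - θ ^ t else rem θ y t

lemma rem_mem {θ y : ℝ} (h1 : 1 / 2 ≤ θ) (h2 : θ < 1) (hy : y ∈ Icc 0 (1 / (1 - θ))) (t : ℕ) :
    rem θ y t ∈ Icc 0 (θ ^ t / (1 - θ)) := by
  have h3 : 0 < 1 - θ := by linarith
  induction t with
  | zero => simpa [rem] using hy
  | succ t ih =>
    have hp : 0 < θ ^ t := by positivity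
    have e1 : θ ^ (t + 1) / (1 - θ) = θ ^ t / (1 - θ) - θ ^ t := by
      field_simp
      ring
    unfold rem
    by_cases hc : θ ^ t ≤ rem θ y t
    · rw [if_pos hc, e1]
      exact ⟨by linarith, by linarith [ih.2]⟩
    · rw [if_neg hc]
      refine ⟨ih.1, ?_⟩
      push Not at hc
      refine hc.le.trans ?_
      rw [le_div_iff₀ h3, pow_succ]
      nlinarith

/-- the chosen places -/
def Ch (θ y : ℝ) : Set ℕ := {t | θ ^ t ≤ rem θ y t}

lemma sum_Ch (θ y : ℝ) (k : ℕ) :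
    ∑ t ∈ Finset.range k, (Ch θ y).indicator (fun t => θ ^ t) t = y - rem θ y k := by
  induction k with
  | zero => simp [rem]
  | succ k ih =>
    rw [Finset.sum_range_succ, ih]
    conv_rhs => unfold rem
    by_cases hc : θ ^ k ≤ rem θ y k
    · rw [if_pos hc, indicator_of_mem (show k ∈ Ch θ y from hc)]
      ring
    · rw [if_neg hc, indicator_of_notMem (show k ∉ Ch θ y from hc)]
      ring

theorem exists_subsum {θ y : ℝ} (h1 : 1 / 2 ≤ θ) (h2 : θ < 1) (hy : y ∈ Icc 0 (1 / (1 - θ))) :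
    HasSum ((Ch θ y).indicator fun t => θ ^ t) y := by
  rw [hasSum_iff_tendsto_nat_of_nonneg (fun t => indicator_nonneg (fun i _ => by positivity) t)]
  simp only [sum_Ch]
  have h4 : Filter.Tendsto (fun k : ℕ => θ ^ k / (1 - θ)) Filter.atTop (nhds 0) := by
    have := (tendsto_pow_atTop_nhds_zero_of_lt_one (by linarith : 0 ≤ θ) h2).div_const (1 - θ)
    simpa using this
  have h3 : Filter.Tendsto (rem θ y) Filter.atTop (nhds 0) :=
    squeeze_zero (fun k => (rem_mem h1 h2 hy k).1) (fun k => (rem_mem h1 h2 hy k).2) h4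
  simpa using h3.const_sub y

end Pool.Agent.Q187.Mir
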