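import Mathlib
import Pool.Agent.Q187.Mir.Def
import Pool.Agent.Q187.Mir.Num
import Pool.Agent.Q187.Mir.Markov

set_option autoImplicit false

/-!
# The system with a self-mirror spectrum
-/

open Filter Topology Set MeasureTheory


namespace Pool.Agent.Q187.Mir

open Pool.Agent.Q187.Sim (comp)

/-- the alphabet -/
abbrev Al : Type := Bool ⊕ ℕ

namespace Par

variable (P : Par)

/-- first weight of the tail -/
noncomputable def c0 : ℝ := A1 * (1 - P.σ)
/-- small slope -/
noncomputable def α : ℝ := A0 ^ P.n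
/-- large slope -/
noncomputable def δ : ℝ := D0 ^ P.n
/-- slopes of the tail -/
noncomputable def r (t : ℕ) : ℝ := (P.c0 * P.σ ^ t) ^ P.n
/-- positions of the tail -/
noncomputable def b (t : ℕ) : ℝ := 3 / 8 + 1 / 8 * (1 / 2) ^ t

lemma A0_pos : 0 < A0 := by unfold A0; norm_num
lemma D0_pos : 0 < D0 := by unfold D0; norm_num
lemma A0_lt_D0 : A0 < D0 := by unfold A0 D0; norm_num
lemma α_pos : 0 < P.α := pow_pos A0_pos _
lemma δ_pos : 0 < P.δ := pow_pos D0_pos _
lemma α_le_δ : P.α ≤ P.δ := pow_le_pow_left₀ A0_pos.le A0_lt_D0.le _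
lemma δ_le : P.δ ≤ 1 / 10 := P.hD
lemma σ_pos : 0 < P.σ := by linarith [P.σ_ge]
lemma c0_pos : 0 < P.c0 := mul_pos A1_pos (by linarith [P.σ_lt])
lemma r_pos (t : ℕ) : 0 < P.r t := by
  have := P.c0_pos
  have := P.σ_pos
  unfold r
  positivity

lemma r_le (t : ℕ) : P.r t ≤ 1 / 64 * (1 / 2) ^ t := by
  unfold r
  rw [mul_pow, ← pow_mul, mul_comm t, pow_mul]
  have h0 := P.c0_pos
  have h1 := P.σ_pos
  exact mul_le_mul P.hc (pow_le_pow_left₀ (by positivity) P.hσ _) (by positivity) (by norm_num)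

lemma r_le' (t : ℕ) : P.r t ≤ 1 / 64 := by
  refine (P.r_le t).trans ?_
  have : ((1 : ℝ) / 2) ^ t ≤ 1 := pow_le_one₀ (by norm_num) (by norm_num)
  linarith

lemma b_gt (t : ℕ) : 3 / 8 < b t := by
  unfold b
  have : (0 : ℝ) < (1 / 2) ^ t := by positivity
  linarith

lemma b_le (t : ℕ) : b t ≤ 1 / 2 := by
  unfold b
  have : ((1 : ℝ) / 2) ^ t ≤ 1 := pow_le_one₀ (by norm_num) (by norm_num)
  linarith

lemma b_sep {t t' : ℕ} (h : t < t') : b t' + P.r t' < b t := by
  have h1 := P.r_le t'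
  have h2 : ((1 : ℝ) / 2) ^ t' ≤ (1 / 2) ^ (t + 1) :=
    pow_le_pow_of_le_one (by norm_num) (by norm_num) h
  have h3 : (0 : ℝ) < (1 / 2) ^ t := by positivity
  unfold b
  rw [pow_succ] at h2
  nlinarith

/-- the derivative -/
noncomputable def g (y : ℝ) : ℝ := P.α + (P.δ - P.α) * Real.smoothTransition (20 * y - 4)

lemma g_smooth : ContDiff ℝ (⊤ : ℕ∞) P.g := by
  unfold g
  refine contDiff_const.add (contDiff_const.mul ?_)
  exact Real.smoothTransition.contDiff.comp ((contDiff_const.mul contDiff_id).sub contDiff_const)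

lemma g_cont : Continuous P.g := P.g_smooth.continuous

lemma g_ge (y : ℝ) : P.α ≤ P.g y := by
  have h1 := Real.smoothTransition.nonneg (20 * y - 4)
  have h2 := P.α_le_δ
  unfold g
  nlinarith

lemma g_le (y : ℝ) : P.g y ≤ P.δ := by
  have h1 := Real.smoothTransition.le_one (20 * y - 4)
  have h2 := P.α_le_δ
  unfold g
  nlinarith

lemma g_left {y : ℝ} (h : y ≤ 1 / 5) : P.g y = P.α := by
  unfold g
  rw [Real.smoothTransition.zero_of_nonpos (by linarith)]
  ring

lemma g_right {y : ℝ} (h : 1 / 4 ≤ y) : P.g y = P.δ := by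
  unfold g
  rw [Real.smoothTransition.one_of_one_le (by linarith)]
  ring

/-- the basic nonlinear map -/
noncomputable def h (x : ℝ) : ℝ := ∫ y in (0 : ℝ)..x, P.g y

lemma hasDerivAt_h (x : ℝ) : HasDerivAt P.h (P.g x) x :=
  intervalIntegral.integral_hasDerivAt_right (P.g_cont.intervalIntegrable _ _)
    (P.g_cont.stronglyMeasurableAtFilter _ _) P.g_cont.continuousAt

lemma deriv_h : deriv P.h = P.g := funext fun x => (P.hasDerivAt_h x).deriv

lemma h_smooth : ContDiff ℝ (⊤ : ℕ∞) P.h := by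
  rw [contDiff_infty_iff_deriv]
  exact ⟨fun x => (P.hasDerivAt_h x).differentiableAt, by rw [P.deriv_h]; exact P.g_smooth⟩

lemma h_zero : P.h 0 = 0 := by simp [h]

lemma h_sub (x y : ℝ) : P.h x - P.h y = ∫ z in y..x, P.g z := by
  unfold h
  rw [intervalIntegral.integral_interval_sub_left (P.g_cont.intervalIntegrable _ _)
    (P.g_cont.intervalIntegrable _ _)]

lemma h_left {x y : ℝ} (hx : x ≤ 1 / 5) (hy : y ≤ 1 / 5) : P.h x - P.h y = P.α * (x - y) := by
  rw [h_sub]
  rw [intervalIntegral.integral_congr (g := fun _ => P.α)]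
  · simp [mul_comm]
  · intro z hz
    exact P.g_left (hz.2.trans (max_le hy hx))

lemma h_right {x y : ℝ} (hx : 1 / 4 ≤ x) (hy : 1 / 4 ≤ y) : P.h x - P.h y = P.δ * (x - y) := by
  rw [h_sub]
  rw [intervalIntegral.integral_congr (g := fun _ => P.δ)]
  · simp [mul_comm]
  · intro z hz
    exact P.g_right ((le_min hy hx).trans hz.1)

lemma h_mono {x y : ℝ} (hxy : x ≤ y) : P.α * (y - x) ≤ P.h y - P.h x := by
  refine mul_sub_le_image_sub_of_le_deriv (fun x => (P.hasDerivAt_h x).differentiableAt) ?_ hxy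
  intro z
  rw [P.deriv_h]
  exact P.g_ge z

lemma h_mono' {x y : ℝ} (hxy : x ≤ y) : P.h y - P.h x ≤ P.δ * (y - x) := by
  refine image_sub_le_mul_sub_of_deriv_le (fun x => (P.hasDerivAt_h x).differentiableAt) ?_ hxy
  intro z
  rw [P.deriv_h]
  exact P.g_le z

lemma h_low (x y : ℝ) : P.α * |x - y| ≤ |P.h x - P.h y| := by
  rcases le_total x y with hxy | hxy
  · rw [abs_sub_comm x, abs_sub_comm (P.h x), abs_of_nonneg (by linarith : 0 ≤ y - x)]
    exact (P.h_mono hxy).trans (le_abs_self _)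
  · rw [abs_of_nonneg (by linarith : 0 ≤ x - y)]
    exact (P.h_mono hxy).trans (le_abs_self _)

lemma h_up (x y : ℝ) : |P.h x - P.h y| ≤ P.δ * |x - y| := by
  have h0 := P.α_pos
  rcases le_total x y with hxy | hxy
  · rw [abs_sub_comm x, abs_sub_comm (P.h x), abs_of_nonneg (by linarith : 0 ≤ y - x),
      abs_of_nonneg]
    · exact P.h_mono' hxy
    · refine le_trans ?_ (P.h_mono hxy)
      exact mul_nonneg h0.le (by linarith)
  · rw [abs_of_nonneg (by linarith : 0 ≤ x - y), abs_of_nonneg]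
    · exact P.h_mono' hxy
    · refine le_trans ?_ (P.h_mono hxy)
      exact mul_nonneg h0.le (by linarith)

/-- the maps -/
noncomputable def u : Al → ℝ → ℝ
  | .inl false, x => P.h x
  | .inl true, x => 1 - P.h (1 - x)
  | .inr t, x => b t + P.r t * x

/-- the slopes -/
noncomputable def c : Al → Al → ℝ
  | .inl i, .inl j => if i = j then P.α else P.δ
  | .inl _, .inr _ => P.δ
  | .inr t, _ => P.r t

/-- lower bounds of the derivatives -/
noncomputable def m : Al → ℝ
  | .inl _ => P.α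
  | .inr t => P.r t

/-- upper bounds of the derivatives -/
noncomputable def M : Al → ℝ
  | .inl _ => P.δ
  | .inr t => P.r t

/-- the open interval -/
def VV : Set ℝ := Ioo (-(1 / 10)) (11 / 10)

/-- the regions -/
def Reg : Al → Set ℝ
  | .inl false => Iio (1 / 5)
  | .inl true => Ioi (4 / 5)
  | .inr _ => Ioo (1 / 4) (3 / 4)

lemma h_VV {x : ℝ} (hx : x ∈ VV) : P.h x ∈ Ioo (-(1 / 50) : ℝ) (1 / 5) := by
  have h1 := P.h_up x 0
  rw [P.h_zero, sub_zero, sub_zero] at h1
  have h2 : |x| < 11 / 10 := by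
    rw [abs_lt]
    constructor <;> linarith [hx.1, hx.2]
  have h3 := P.δ_le
  have h4 := P.δ_pos
  rcases le_total 0 x with h0 | h0
  · have h5 := P.h_mono h0
    rw [P.h_zero, sub_zero, sub_zero] at h5
    have h6 : 0 ≤ P.α * x := mul_nonneg P.α_pos.le h0
    have h7 := abs_le.1 h1
    rw [abs_of_nonneg h0] at h7 h2
    constructor
    · linarith
    · nlinarith [h7.2]
  · have h5 := P.h_mono h0
    have h6 := P.h_mono' h0
    rw [P.h_zero, zero_sub, zero_sub] at h5 h6
    have h7 : 0 ≤ P.α * -x := mul_nonneg P.α_pos.le (by linarith)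
    have h8 := hx.1
    constructor
    · nlinarith
    · nlinarith

lemma u_Reg (e : Al) {x : ℝ} (hx : x ∈ VV) : P.u e x ∈ Reg e := by
  rcases e with (_ | _) | t
  · exact (P.h_VV hx).2
  · have h1 : 1 - x ∈ VV := ⟨by linarith [hx.2], by linarith [hx.1]⟩
    have := P.h_VV h1
    show 4 / 5 < 1 - P.h (1 - x)
    linarith [this.2]
  · have h1 := P.r_pos t
    have h2 := P.r_le' t
    have h3 := b_gt t
    have h4 := b_le t
    show b t + P.r t * x ∈ Ioo (1 / 4 : ℝ) (3 / 4)
    constructor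
    · nlinarith [hx.1]
    · nlinarith [hx.2]

lemma u_VV (e : Al) : MapsTo (P.u e) VV VV := by
  intro x hx
  rcases e with (_ | _) | t
  · have := P.h_VV hx
    exact ⟨by show _ < P.h x; linarith [this.1], by show P.h x < _; linarith [this.2]⟩
  · have h1 : 1 - x ∈ VV := ⟨by linarith [hx.2], by linarith [hx.1]⟩
    have := P.h_VV h1
    exact ⟨by show _ < 1 - P.h (1 - x); linarith [this.2],
      by show 1 - P.h (1 - x) < _; linarith [this.1]⟩
  · have h1 := P.u_Reg (.inr t) hx
    exact ⟨by linarith [h1.1], by linarith [h1.2]⟩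

lemma Icc_sub : Icc (0 : ℝ) 1 ⊆ VV := fun x hx => ⟨by linarith [hx.1], by linarith [hx.2]⟩

lemma h_Icc {x : ℝ} (hx : x ∈ Icc (0 : ℝ) 1) : P.h x ∈ Icc (0 : ℝ) (1 / 10) := by
  have h1 := P.h_mono hx.1
  have h2 := P.h_mono' hx.1
  rw [P.h_zero, sub_zero, sub_zero] at h1 h2
  have h3 := P.δ_le
  have h4 := P.δ_pos
  have h5 := P.α_pos
  constructor
  · have := mul_nonneg h5.le hx.1
    linarith
  · nlinarith [hx.2]

lemma u_Icc (e : Al) : MapsTo (P.u e) (Icc 0 1) (Icc 0 1) := by
  intro x hx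
  rcases e with (_ | _) | t
  · have := P.h_Icc hx
    exact ⟨this.1, this.2.trans (by norm_num)⟩
  · have h1 : 1 - x ∈ Icc (0 : ℝ) 1 := ⟨by linarith [hx.2], by linarith [hx.1]⟩
    have := P.h_Icc h1
    exact ⟨by show 0 ≤ 1 - P.h (1 - x); linarith [this.2],
      by show 1 - P.h (1 - x) ≤ _; linarith [this.1]⟩
  · have h1 := P.u_Reg (.inr t) (Icc_sub hx)
    exact ⟨by linarith [h1.1], by linarith [h1.2]⟩

/-- the derivative of `u e` -/
noncomputable def du : Al → ℝ → ℝ
  | .inl false, x => P.g x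
  | .inl true, x => P.g (1 - x)
  | .inr t, _ => P.r t

lemma hasDerivAt_u (e : Al) (x : ℝ) : HasDerivAt (P.u e) (P.du e x) x := by
  rcases e with (_ | _) | t
  · exact P.hasDerivAt_h x
  · have h1 : HasDerivAt (fun y : ℝ => 1 - y) (-1) x := by
      simpa using (hasDerivAt_id x).const_sub 1
    have h2 := ((P.hasDerivAt_h (1 - x)).comp x h1).const_sub 1
    have h3 : HasDerivAt (fun y => 1 - P.h (1 - y)) (-(P.g (1 - x) * -1)) x := h2
    have h4 : -(P.g (1 - x) * -1) = P.du (.inl true) x := by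
      show _ = P.g (1 - x)
      ring
    rw [h4] at h3
    exact h3
  · have h2 : HasDerivAt (fun y : ℝ => b t + P.r t * id y) (P.r t * 1) x :=
      ((hasDerivAt_id x).const_mul (P.r t)).const_add (b t)
    rw [mul_one] at h2
    exact h2

lemma deriv_u (e : Al) (x : ℝ) : deriv (P.u e) x = P.du e x := (P.hasDerivAt_u e x).deriv

lemma u_smooth (e : Al) : ContDiff ℝ (⊤ : ℕ∞) (P.u e) := by
  rcases e with (_ | _) | t
  · exact P.h_smooth
  · exact contDiff_const.sub (P.h_smooth.comp (contDiff_const.sub contDiff_id))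
  · exact contDiff_const.add (contDiff_const.mul contDiff_id)

lemma du_const (e e' : Al) {x : ℝ} (hx : x ∈ Reg e') : P.du e x = P.c e e' := by
  rcases e with (_ | _) | t
  · rcases e' with (_ | _) | t'
    · have h1 : x < 1 / 5 := hx
      show P.g x = if false = false then P.α else P.δ
      rw [P.g_left h1.le, if_pos rfl]
    · have h1 : 4 / 5 < x := hx
      show P.g x = if false = true then P.α else P.δ
      rw [P.g_right (by linarith), if_neg (by simp)]
    · have h1 : x ∈ Ioo (1 / 4 : ℝ) (3 / 4) := hx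
      show P.g x = P.δ
      rw [P.g_right h1.1.le]
  · rcases e' with (_ | _) | t'
    · have h1 : x < 1 / 5 := hx
      show P.g (1 - x) = if true = false then P.α else P.δ
      rw [P.g_right (by linarith), if_neg (by simp)]
    · have h1 : 4 / 5 < x := hx
      show P.g (1 - x) = if true = true then P.α else P.δ
      rw [P.g_left (by linarith), if_pos rfl]
    · have h1 : x ∈ Ioo (1 / 4 : ℝ) (3 / 4) := hx
      show P.g (1 - x) = P.δ
      rw [P.g_right (by linarith [h1.2])]
  · rcases e' with (_ | _) | t' <;> rfl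

lemma m_le_du (e : Al) (x : ℝ) : P.m e ≤ P.du e x := by
  rcases e with (_ | _) | t
  · exact P.g_ge x
  · exact P.g_ge _
  · exact le_refl _

lemma du_le_M (e : Al) (x : ℝ) : P.du e x ≤ P.M e := by
  rcases e with (_ | _) | t
  · exact P.g_le x
  · exact P.g_le _
  · exact le_refl _

lemma m_pos (e : Al) : 0 < P.m e := by
  rcases e with i | t
  · exact P.α_pos
  · exact P.r_pos t

lemma M_le (e : Al) : P.M e ≤ 1 / 10 := by
  rcases e with i | t
  · exact P.δ_le
  · exact (P.r_le' t).trans (by norm_num)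

lemma c_pos (e e' : Al) : 0 < P.c e e' := by
  rcases e with i | t <;> rcases e' with j | t'
  · show 0 < if i = j then P.α else P.δ
    split_ifs
    · exact P.α_pos
    · exact P.δ_pos
  · exact P.δ_pos
  · exact P.r_pos t
  · exact P.r_pos t

lemma c_le (e e' : Al) : P.c e e' ≤ P.M e := by
  rcases e with i | t <;> rcases e' with j | t'
  · show (if i = j then P.α else P.δ) ≤ P.δ
    split_ifs
    · exact P.α_le_δ
    · exact le_refl _
  · exact le_refl _
  · exact le_refl _
  · exact le_refl _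

lemma u_low (e : Al) (x y : ℝ) : P.m e * |x - y| ≤ |P.u e x - P.u e y| := by
  rcases e with (_ | _) | t
  · exact P.h_low x y
  · have := P.h_low (1 - x) (1 - y)
    have e1 : |1 - x - (1 - y)| = |x - y| := by rw [abs_sub_comm x y]; congr 1; ring
    have e2 : |P.h (1 - x) - P.h (1 - y)| = |1 - P.h (1 - x) - (1 - P.h (1 - y))| := by
      rw [abs_sub_comm (P.h (1 - x))]; congr 1; ring
    rw [e1, e2] at this
    exact this
  · show P.r t * |x - y| ≤ |b t + P.r t * x - (b t + P.r t * y)|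
    have e1 : b t + P.r t * x - (b t + P.r t * y) = P.r t * (x - y) := by ring
    rw [e1, abs_mul, abs_of_pos (P.r_pos t)]

lemma u_up (e : Al) (x y : ℝ) : |P.u e x - P.u e y| ≤ P.M e * |x - y| := by
  rcases e with (_ | _) | t
  · exact P.h_up x y
  · have := P.h_up (1 - x) (1 - y)
    have e1 : |1 - x - (1 - y)| = |x - y| := by rw [abs_sub_comm x y]; congr 1; ring
    have e2 : |P.h (1 - x) - P.h (1 - y)| = |1 - P.h (1 - x) - (1 - P.h (1 - y))| := by
      rw [abs_sub_comm (P.h (1 - x))]; congr 1; ring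
    rw [e1, e2] at this
    exact this
  · show |b t + P.r t * x - (b t + P.r t * y)| ≤ P.r t * |x - y|
    have e1 : b t + P.r t * x - (b t + P.r t * y) = P.r t * (x - y) := by ring
    rw [e1, abs_mul, abs_of_pos (P.r_pos t)]

lemma u_inj (e : Al) : Function.Injective (P.u e) := by
  intro x y hxy
  have h1 := P.u_low e x y
  rw [hxy, sub_self, abs_zero] at h1
  have h2 := P.m_pos e
  have h3 : |x - y| ≤ 0 := by
    by_contra h
    push Not at h
    have := mul_pos h2 h
    linarith
  have h4 := abs_nonpos_iff.1 h3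
  linarith

lemma u_aff (e e' : Al) {x y : ℝ} (hx : x ∈ VV) (hy : y ∈ VV) :
    P.u e (P.u e' x) - P.u e (P.u e' y) = P.c e e' * (P.u e' x - P.u e' y) := by
  have hX := P.u_Reg e' hx
  have hY := P.u_Reg e' hy
  rcases e with (_ | _) | t
  · rcases e' with (_ | _) | t'
    · have h1 : P.u (.inl false) x < 1 / 5 := hX
      have h2 : P.u (.inl false) y < 1 / 5 := hY
      show P.h _ - P.h _ = (if false = false then P.α else P.δ) * _
      rw [if_pos rfl]
      exact P.h_left h1.le h2.le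
    · have h1 : 4 / 5 < P.u (.inl true) x := hX
      have h2 : 4 / 5 < P.u (.inl true) y := hY
      show P.h _ - P.h _ = (if false = true then P.α else P.δ) * _
      rw [if_neg (by simp)]
      exact P.h_right (by linarith) (by linarith)
    · have h1 : P.u (.inr t') x ∈ Ioo (1 / 4 : ℝ) (3 / 4) := hX
      have h2 : P.u (.inr t') y ∈ Ioo (1 / 4 : ℝ) (3 / 4) := hY
      exact P.h_right h1.1.le h2.1.le
  · rcases e' with (_ | _) | t'
    · have h1 : P.u (.inl false) x < 1 / 5 := hX
      have h2 : P.u (.inl false) y < 1 / 5 := hY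
      show (1 - P.h _) - (1 - P.h _) = (if true = false then P.α else P.δ) * _
      rw [if_neg (by simp)]
      have := P.h_right (x := 1 - P.u (.inl false) x) (y := 1 - P.u (.inl false) y) (by linarith)
        (by linarith)
      linarith
    · have h1 : 4 / 5 < P.u (.inl true) x := hX
      have h2 : 4 / 5 < P.u (.inl true) y := hY
      show (1 - P.h _) - (1 - P.h _) = (if true = true then P.α else P.δ) * _
      rw [if_pos rfl]
      have := P.h_left (x := 1 - P.u (.inl true) x) (y := 1 - P.u (.inl true) y) (by linarith)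
        (by linarith)
      linarith
    · have h1 : P.u (.inr t') x ∈ Ioo (1 / 4 : ℝ) (3 / 4) := hX
      have h2 : P.u (.inr t') y ∈ Ioo (1 / 4 : ℝ) (3 / 4) := hY
      have := P.h_right (x := 1 - P.u (.inr t') x) (y := 1 - P.u (.inr t') y) (by linarith [h1.2])
        (by linarith [h2.2])
      show (1 - P.h _) - (1 - P.h _) = P.δ * _
      linarith
  · show (b t + P.r t * _) - (b t + P.r t * _) = P.r t * _
    ring

lemma u_sep (e e' : Al) (hne : e ≠ e') : ∃ g : ℝ, 0 < g ∧ ∀ x ∈ Icc (0 : ℝ) 1, ∀ y ∈ Icc (0 : ℝ) 1,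
    g ≤ |P.u e x - P.u e' y| := by
  have hF : ∀ x ∈ Icc (0 : ℝ) 1, P.u (.inl false) x ≤ 1 / 10 := fun x hx => (P.h_Icc hx).2
  have hT : ∀ x ∈ Icc (0 : ℝ) 1, 9 / 10 ≤ P.u (.inl true) x := fun x hx => by
    have h1 : 1 - x ∈ Icc (0 : ℝ) 1 := ⟨by linarith [hx.2], by linarith [hx.1]⟩
    have := P.h_Icc h1
    show 9 / 10 ≤ 1 - P.h (1 - x)
    linarith [this.2]
  have hN : ∀ t, ∀ x ∈ Icc (0 : ℝ) 1, P.u (.inr t) x ∈ Ioo (1 / 4 : ℝ) (3 / 4) := fun t x hx =>
    P.u_Reg (.inr t) (Icc_sub hx)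
  have hlt : ∀ t t', t < t' → ∀ x ∈ Icc (0 : ℝ) 1, ∀ y ∈ Icc (0 : ℝ) 1,
      b t - (b t' + P.r t') ≤ P.u (.inr t) x - P.u (.inr t') y := by
    intro t t' _ x hx y hy
    show b t - (b t' + P.r t') ≤ (b t + P.r t * x) - (b t' + P.r t' * y)
    have h1 := P.r_pos t
    have h2 := P.r_pos t'
    nlinarith [hx.1, hy.2, mul_nonneg h1.le hx.1]
  rcases e with (_ | _) | t <;> rcases e' with (_ | _) | t'
  · exact absurd rfl hne
  · refine ⟨8 / 10, by norm_num, fun x hx y hy => ?_⟩
    rw [abs_sub_comm]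
    refine le_trans ?_ (le_abs_self _)
    linarith [hF x hx, hT y hy]
  · refine ⟨1 / 10, by norm_num, fun x hx y hy => ?_⟩
    rw [abs_sub_comm]
    refine le_trans ?_ (le_abs_self _)
    linarith [hF x hx, (hN t' y hy).1]
  · refine ⟨8 / 10, by norm_num, fun x hx y hy => ?_⟩
    refine le_trans ?_ (le_abs_self _)
    linarith [hF y hy, hT x hx]
  · exact absurd rfl hne
  · refine ⟨1 / 10, by norm_num, fun x hx y hy => ?_⟩
    refine le_trans ?_ (le_abs_self _)
    linarith [hT x hx, (hN t' y hy).2]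
  · refine ⟨1 / 10, by norm_num, fun x hx y hy => ?_⟩
    refine le_trans ?_ (le_abs_self _)
    linarith [hF y hy, (hN t x hx).1]
  · refine ⟨1 / 10, by norm_num, fun x hx y hy => ?_⟩
    rw [abs_sub_comm]
    refine le_trans ?_ (le_abs_self _)
    linarith [hT y hy, (hN t x hx).2]
  · rcases lt_trichotomy t t' with h | h | h
    · refine ⟨b t - (b t' + P.r t'), by linarith [P.b_sep h], fun x hx y hy => ?_⟩
      exact (hlt t t' h x hx y hy).trans (le_abs_self _)
    · exact absurd (by rw [h]) hne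
    · refine ⟨b t' - (b t + P.r t), by linarith [P.b_sep h], fun x hx y hy => ?_⟩
      rw [abs_sub_comm]
      exact (hlt t' t h y hy x hx).trans (le_abs_self _)

/-- the system as a system with slopes depending on two letters -/
noncomputable def ms : Mk Al where
  u := P.u
  c := P.c
  m := P.m
  M := P.M
  c_pos := P.c_pos
  c_le e e' := (P.c_le e e').trans ((P.M_le e).trans (by norm_num))
  m_pos := P.m_pos
  M_le e := (P.M_le e).trans (by norm_num)
  mem := P.u_Icc
  aff e e' x hx y hy := P.u_aff e e' (Icc_sub hx) (Icc_sub hy)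
  low e x _ y _ := P.u_low e x y
  up e x _ y _ := P.u_up e x y
  sep := P.u_sep

/-! ### the conformal system -/

lemma comp_VV (ω : ℕ → Al) (n : ℕ) : MapsTo (comp P.u ω n) VV VV := by
  induction n with
  | zero => intro x hx; exact hx
  | succ n ih => exact ih.comp (P.u_VV _)

/-- the derivative of a composition -/
lemma hasDerivAt_comp (ω : ℕ → Al) (n : ℕ) {x : ℝ} (hx : x ∈ VV) :
    HasDerivAt (comp P.u ω (n + 1)) (P.ms.CP ω n * P.du (ω n) x) x := by
  induction n generalizing x with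
  | zero =>
    have : P.ms.CP ω 0 = 1 := by simp [Mk.CP]
    rw [this, one_mul]
    exact P.hasDerivAt_u (ω 0) x
  | succ n ih =>
    have h1 := (ih (P.u_VV (ω (n + 1)) hx)).comp x (P.hasDerivAt_u (ω (n + 1)) x)
    rw [P.du_const (ω n) (ω (n + 1)) (P.u_Reg _ hx)] at h1
    have h2 : P.ms.CP ω (n + 1) = P.ms.CP ω n * P.c (ω n) (ω (n + 1)) := P.ms.CP_succ ω n
    rw [h2]
    exact h1

lemma volume_cone {x r : ℝ} (hx : x ∈ Icc (0 : ℝ) 1) (hr : r ∈ Ioo (0 : ℝ) 1) :
    1 / 2 ≤ (volume (Icc (0 : ℝ) 1 ∩ Metric.ball x r)).toReal / r ^ 1 := by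
  rw [pow_one, le_div_iff₀ hr.1, Real.ball_eq_Ioo]
  have hfin : volume (Icc (0 : ℝ) 1 ∩ Ioo (x - r) (x + r)) ≠ ⊤ :=
    ne_top_of_le_ne_top (by simp : volume (Icc (0 : ℝ) 1) ≠ ⊤) (measure_mono inter_subset_left)
  rcases le_total x (1 / 2) with h | h
  · have hsub : Ioo x (x + r / 2) ⊆ Icc (0 : ℝ) 1 ∩ Ioo (x - r) (x + r) := fun y hy =>
      ⟨⟨by linarith [hx.1, hy.1], by linarith [hy.2, hr.2]⟩, by linarith [hy.1, hr.1],
        by linarith [hy.2, hr.1]⟩
    have h1 := ENNReal.toReal_mono hfin (measure_mono hsub)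
    rw [Real.volume_Ioo, ENNReal.toReal_ofReal (by linarith [hr.1])] at h1
    linarith
  · have hsub : Ioo (x - r / 2) x ⊆ Icc (0 : ℝ) 1 ∩ Ioo (x - r) (x + r) := fun y hy =>
      ⟨⟨by linarith [hy.1, hr.2], by linarith [hx.2, hy.2]⟩, by linarith [hy.1, hr.1],
        by linarith [hy.2, hr.1]⟩
    have h1 := ENNReal.toReal_mono hfin (measure_mono hsub)
    rw [Real.volume_Ioo, ENNReal.toReal_ofReal (by linarith [hr.1])] at h1
    linarith

/-- the conformal iterated function system -/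
noncomputable def cifs : CIFS Al where
  X := Icc 0 1
  V := VV
  u := P.u
  nonempty_X := ⟨0, le_refl _, zero_le_one⟩
  isCompact_X := isCompact_Icc
  closure_interior_X := by rw [interior_Icc, closure_Ioo (by norm_num)]
  mapsTo_X := P.u_Icc
  isOpen_V := isOpen_Ioo
  isConnected_V := isConnected_Ioo (by norm_num)
  isBounded_V := Metric.isBounded_Ioo _ _
  subset_V := Icc_sub
  dist_V := by
    refine ⟨1 / 10, by norm_num, fun x hx y hy => ?_⟩
    by_contra h
    push Not at h
    rw [abs_lt] at h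
    apply hy
    constructor
    · linarith [hx.1, h.2]
    · linarith [hx.2, h.1]
  mapsTo_V := P.u_VV
  injOn_V e := (P.u_inj e).injOn
  isOpen_image e := by
    rw [isOpen_iff_mem_nhds]
    rintro _ ⟨x, hx, rfl⟩
    have h1 : HasStrictDerivAt (P.u e) (P.du e x) x := by
      have := (P.u_smooth e).contDiffAt.hasStrictDerivAt (x := x) (by simp)
      rwa [P.deriv_u] at this
    have h2 := h1.map_nhds_eq (by
      have := P.m_le_du e x
      have := P.m_pos e
      linarith)
    rw [← h2]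
    exact Filter.image_mem_map (isOpen_Ioo.mem_nhds hx)
  smooth e := (P.u_smooth e).contDiffOn
  deriv_ne e x _ := by
    rw [P.deriv_u]
    have := P.m_le_du e x
    have := P.m_pos e
    linarith
  cone := ⟨1 / 2, by norm_num, fun x hx r hr => volume_cone hx hr⟩
  open_set a b hab := by
    rw [Set.disjoint_left]
    rintro _ ⟨x, hx, rfl⟩ ⟨y, hy, h⟩
    obtain ⟨g, hg, h1⟩ := P.u_sep a b hab
    have := h1 x (interior_subset hx) y (interior_subset hy)
    rw [h, sub_self, abs_zero] at this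
    linarith
  contraction := by
    refine ⟨1 / 10, by norm_num, fun a x _ => ?_⟩
    rw [P.deriv_u, abs_of_pos ((P.m_pos a).trans_le (P.m_le_du a x))]
    exact (P.du_le_M a x).trans (P.M_le a)
  null := by
    intro ε hε
    obtain ⟨N, hN⟩ := exists_pow_lt_of_lt_one hε (show (1 / 2 : ℝ) < 1 by norm_num)
    refine ((Set.finite_range (Sum.inl : Bool → Al)).union
      ((Set.finite_lt_nat N).image (Sum.inr : ℕ → Al))).subset ?_
    rintro (i | t) ⟨x, _, hx⟩
    · exact Or.inl ⟨i, rfl⟩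
    · right
      refine ⟨t, ?_, rfl⟩
      rw [P.deriv_u] at hx
      have h1 : |P.du (.inr t) x| = P.r t := abs_of_pos (P.r_pos t)
      rw [h1] at hx
      by_contra h
      have h2 : N ≤ t := by simpa using h
      have h3 : ((1 : ℝ) / 2) ^ t ≤ (1 / 2) ^ N := pow_le_pow_of_le_one (by norm_num) (by norm_num) h2
      have h4 := P.r_le t
      have h5 : (0 : ℝ) < (1 / 2) ^ t := by positivity
      linarith
  distortion := by
    refine ⟨P.δ / P.α, (one_le_div P.α_pos).2 P.α_le_δ, fun ω n x hx y hy => ?_⟩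
    have hα := P.α_pos
    have h1 : 1 ≤ P.δ / P.α := (one_le_div P.α_pos).2 P.α_le_δ
    cases n with
    | zero =>
      show |deriv id x| ≤ P.δ / P.α * |deriv id y|
      simp only [deriv_id, abs_one, mul_one]
      exact h1
    | succ n =>
      rw [(P.hasDerivAt_comp ω n hx).deriv, (P.hasDerivAt_comp ω n hy).deriv]
      have hCP := P.ms.CP_pos ω n
      have hx' := (P.m_pos (ω n)).trans_le (P.m_le_du (ω n) x)
      have hy' := (P.m_pos (ω n)).trans_le (P.m_le_du (ω n) y)
      rw [abs_of_pos (mul_pos hCP hx'), abs_of_pos (mul_pos hCP hy')]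
      have key : P.du (ω n) x ≤ P.δ / P.α * P.du (ω n) y := by
        have h2 := P.du_le_M (ω n) x
        have h3 := P.m_le_du (ω n) y
        have h4 : P.M (ω n) ≤ P.δ / P.α * P.m (ω n) := by
          rcases ω n with i | t
          · show P.δ ≤ P.δ / P.α * P.α
            rw [div_mul_cancel₀ _ hα.ne']
          · show P.r t ≤ P.δ / P.α * P.r t
            have := P.r_pos t
            nlinarith
        calc P.du (ω n) x ≤ P.δ / P.α * P.m (ω n) := h2.trans h4
          _ ≤ _ := by gcongr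
      calc P.ms.CP ω n * P.du (ω n) x ≤ P.ms.CP ω n * (P.δ / P.α * P.du (ω n) y) := by gcongr
        _ = _ := by ring

lemma limitSet_eq (A : Set Al) : P.cifs.limitSet A = P.ms.J A := by
  ext p
  constructor
  · rintro ⟨ω, h1, h2⟩
    refine ⟨ω, h1, ?_⟩
    exact tendsto_nhds_unique (P.ms.pt_tendsto0 ω) (h2 0 ⟨le_refl _, zero_le_one⟩)
  · rintro ⟨ω, h1, rfl⟩
    exact ⟨ω, h1, fun x hx => P.ms.pt_tendsto ω hx⟩

end Par

end Pool.Agent.Q187.Mir
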