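import Mathlib
import Pool.Agent.Q187.Mir.Sys

set_option autoImplicit false

/-!
# The spectrum of the system
-/

open Filter Topology Set MeasureTheory
open scoped ENNReal NNReal

namespace Pool.Agent.Q187.Mir

open Pool.Agent.Q187.Sim (comp)

/-- subalphabets -/
def AI (I : Finset Bool) (B : Set ℕ) : Set Al := {e | (∃ i ∈ I, e = .inl i) ∨ ∃ t ∈ B, e = .inr t}

lemma inl_mem_AI {I : Finset Bool} {B : Set ℕ} {i : Bool} :
    (Sum.inl i : Al) ∈ AI I B ↔ i ∈ I := by
  constructor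
  · rintro (⟨j, hj, h⟩ | ⟨t, _, h⟩)
    · rw [Sum.inl.inj h]
      exact hj
    · cases h
  · intro h
    exact Or.inl ⟨i, h, rfl⟩

lemma inr_mem_AI {I : Finset Bool} {B : Set ℕ} {t : ℕ} :
    (Sum.inr t : Al) ∈ AI I B ↔ t ∈ B := by simp [AI]

lemma tsum_AI (I : Finset Bool) (B : Set ℕ) (G : Al → ℝ≥0∞) :
    ∑' e : AI I B, G e = ∑ i ∈ I, G (.inl i) + ∑' t, B.indicator (fun t => G (.inr t)) t := by
  classical
  rw [tsum_subtype (AI I B) G, Summable.tsum_sum ENNReal.summable ENNReal.summable]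
  congr 1
  · rw [tsum_fintype, ← Finset.sum_subset (Finset.subset_univ I)]
    · exact Finset.sum_congr rfl fun i hi => indicator_of_mem (inl_mem_AI.2 hi) _
    · intro i _ hi
      exact indicator_of_notMem (fun h => hi (inl_mem_AI.1 h)) _
  · congr 1
    funext t
    by_cases ht : t ∈ B
    · rw [indicator_of_mem ht, indicator_of_mem (inr_mem_AI.2 ht)]
    · rw [indicator_of_notMem ht, indicator_of_notMem fun h => ht (inr_mem_AI.1 h)]

namespace Par

variable (P : Par)

lemma sumI {I : Finset Bool} {i : Bool} (hi : i ∈ I) (F : ℝ → ℝ) :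
    ∑ j ∈ I, F (P.c (.inl i) (.inl j)) = F P.α + ((I.card : ℝ) - 1) * F P.δ := by
  classical
  rw [← Finset.add_sum_erase I _ hi]
  have h1 : P.c (.inl i) (.inl i) = P.α := if_pos rfl
  rw [h1]
  congr 1
  rw [Finset.sum_congr rfl (g := fun _ => F P.δ)]
  · rw [Finset.sum_const, nsmul_eq_mul, Finset.card_erase_of_mem hi, Nat.cast_sub, Nat.cast_one]
    exact Finset.card_pos.2 ⟨i, hi⟩
  · intro j hj
    have h2 : P.c (.inl i) (.inl j) = P.δ := if_neg fun h => (Finset.mem_erase.1 hj).1 h.symm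
    rw [h2]

lemma δ_lt_one : P.δ < 1 := by linarith [P.δ_le]
lemma α_lt_one : P.α < 1 := P.α_le_δ.trans_lt P.δ_lt_one

theorem upper (I : Finset Bool) (B : Set ℕ) {s : ℝ} (hs : 0 < s) {f v : ℝ}
    (hf : HasSum (B.indicator fun t => P.r t ^ s) f) (hv : 0 < v) (h1 : (I.card : ℝ) * v + f ≤ 1)
    (h2 : I.Nonempty → (P.α ^ s + ((I.card : ℝ) - 1) * P.δ ^ s) * v + P.δ ^ s * f ≤ v) :
    dimH (P.ms.J (AI I B)) ≤ ENNReal.ofReal s := by
  have hr0 : ∀ t, 0 ≤ P.r t ^ s := fun t => Real.rpow_nonneg (P.r_pos t).le _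
  have hind0 : ∀ t, 0 ≤ B.indicator (fun t => P.r t ^ s) t := fun t =>
    indicator_nonneg (fun t _ => hr0 t) t
  have hf0 : 0 ≤ f := hf.nonneg hind0
  have hfE : ∑' t, B.indicator (fun t => ENNReal.ofReal (P.r t) ^ s) t = ENNReal.ofReal f := by
    rw [← hf.tsum_eq, ENNReal.ofReal_tsum_of_nonneg hind0 hf.summable]
    refine tsum_congr fun t => ?_
    by_cases ht : t ∈ B
    · rw [indicator_of_mem ht, indicator_of_mem ht,
        ENNReal.ofReal_rpow_of_nonneg (P.r_pos t).le hs.le]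
    · rw [indicator_of_notMem ht, indicator_of_notMem ht, ENNReal.ofReal_zero]
  set V : Al → ℝ≥0∞ := fun e => match e with
    | .inl _ => ENNReal.ofReal v
    | .inr t => ENNReal.ofReal (P.r t) ^ s with hV
  set K : ℝ≥0∞ := ENNReal.ofReal (1 / v) + 1 with hK
  refine P.ms.dim_le (AI I B) hs V K (by simp [hK]) ?_ ?_ ?_
  · rw [tsum_AI]
    simp only [hV]
    rw [hfE, Finset.sum_const]
    simp [ENNReal.mul_eq_top]
  · intro e he
    rw [tsum_AI I B fun e' => ENNReal.ofReal (P.ms.c e e') ^ s * V e']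
    rcases e with i | t
    · have hi : i ∈ I := inl_mem_AI.1 he
      have e1 : ∑ j ∈ I, ENNReal.ofReal (P.ms.c (.inl i) (.inl j)) ^ s * V (.inl j) =
          ENNReal.ofReal ((P.α ^ s + ((I.card : ℝ) - 1) * P.δ ^ s) * v) := by
        rw [← P.sumI hi (fun y => y ^ s), Finset.sum_mul, ENNReal.ofReal_sum_of_nonneg]
        · refine Finset.sum_congr rfl fun j _ => ?_
          rw [ENNReal.ofReal_mul (Real.rpow_nonneg (P.c_pos _ _).le _),
            ← ENNReal.ofReal_rpow_of_nonneg (P.c_pos _ _).le hs.le]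
          rfl
        · intro j _
          exact mul_nonneg (Real.rpow_nonneg (P.c_pos _ _).le _) hv.le
      have e2 : ∑' t, B.indicator (fun t => ENNReal.ofReal (P.ms.c (.inl i) (.inr t)) ^ s *
          V (.inr t)) t = ENNReal.ofReal (P.δ ^ s * f) := by
        have : ∀ t, B.indicator (fun t => ENNReal.ofReal (P.ms.c (.inl i) (.inr t)) ^ s *
            V (.inr t)) t = ENNReal.ofReal P.δ ^ s *
              B.indicator (fun t => ENNReal.ofReal (P.r t) ^ s) t := by
          intro t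
          by_cases ht : t ∈ B
          · rw [indicator_of_mem ht, indicator_of_mem ht]
            rfl
          · rw [indicator_of_notMem ht, indicator_of_notMem ht, mul_zero]
        rw [tsum_congr this, ENNReal.tsum_mul_left, hfE,
          ENNReal.ofReal_mul (Real.rpow_nonneg P.δ_pos.le _),
          ENNReal.ofReal_rpow_of_nonneg P.δ_pos.le hs.le]
      rw [e1, e2, ← ENNReal.ofReal_add]
      · exact ENNReal.ofReal_le_ofReal (h2 ⟨i, hi⟩)
      · have h3 : (1 : ℝ) ≤ I.card := by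
          exact_mod_cast Finset.card_pos.2 ⟨i, hi⟩
        have h4 := Real.rpow_nonneg P.α_pos.le s
        have h5 := Real.rpow_nonneg P.δ_pos.le s
        have h6 : 0 ≤ ((I.card : ℝ) - 1) * P.δ ^ s := mul_nonneg (by linarith) h5
        positivity
      · exact mul_nonneg (Real.rpow_nonneg P.δ_pos.le _) hf0
    · have e1 : ∑ j ∈ I, ENNReal.ofReal (P.ms.c (.inr t) (.inl j)) ^ s * V (.inl j) =
          ENNReal.ofReal (P.r t) ^ s * (I.card * ENNReal.ofReal v) := by
        have : ∀ j ∈ I, ENNReal.ofReal (P.ms.c (.inr t) (.inl j)) ^ s * V (.inl j) =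
            ENNReal.ofReal (P.r t) ^ s * ENNReal.ofReal v := fun _ _ => rfl
        rw [Finset.sum_congr rfl this, Finset.sum_const, nsmul_eq_mul]
        ring
      have e2 : ∑' t', B.indicator (fun t' => ENNReal.ofReal (P.ms.c (.inr t) (.inr t')) ^ s *
          V (.inr t')) t' = ENNReal.ofReal (P.r t) ^ s * ENNReal.ofReal f := by
        have : ∀ t', B.indicator (fun t' => ENNReal.ofReal (P.ms.c (.inr t) (.inr t')) ^ s *
            V (.inr t')) t' = ENNReal.ofReal (P.r t) ^ s *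
              B.indicator (fun t => ENNReal.ofReal (P.r t) ^ s) t' := by
          intro t'
          by_cases ht : t' ∈ B
          · rw [indicator_of_mem ht, indicator_of_mem ht]
            rfl
          · rw [indicator_of_notMem ht, indicator_of_notMem ht, mul_zero]
        rw [tsum_congr this, ENNReal.tsum_mul_left, hfE]
      rw [e1, e2, ← mul_add]
      have e3 : (I.card : ℝ≥0∞) * ENNReal.ofReal v + ENNReal.ofReal f ≤ 1 := by
        rw [← ENNReal.ofReal_natCast, ← ENNReal.ofReal_mul (by positivity),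
          ← ENNReal.ofReal_add (by positivity) hf0, ← ENNReal.ofReal_one]
        exact ENNReal.ofReal_le_ofReal h1
      calc ENNReal.ofReal (P.r t) ^ s * ((I.card : ℝ≥0∞) * ENNReal.ofReal v + ENNReal.ofReal f)
          ≤ ENNReal.ofReal (P.r t) ^ s * 1 := by gcongr
        _ = V (.inr t) := mul_one _
  · intro e he
    rcases e with i | t
    · have h3 : ENNReal.ofReal (P.ms.M (.inl i)) ^ s ≤ 1 := by
        apply ENNReal.rpow_le_one _ hs.le
        rw [← ENNReal.ofReal_one]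
        exact ENNReal.ofReal_le_ofReal P.δ_lt_one.le
      refine h3.trans ?_
      show 1 ≤ K * ENNReal.ofReal v
      calc (1 : ℝ≥0∞) = ENNReal.ofReal (1 / v) * ENNReal.ofReal v := by
            rw [← ENNReal.ofReal_mul (by positivity), one_div_mul_cancel hv.ne', ENNReal.ofReal_one]
        _ ≤ K * ENNReal.ofReal v := by
            gcongr
            exact le_self_add
    · show ENNReal.ofReal (P.r t) ^ s ≤ K * ENNReal.ofReal (P.r t) ^ s
      calc ENNReal.ofReal (P.r t) ^ s = 1 * ENNReal.ofReal (P.r t) ^ s := (one_mul _).symm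
        _ ≤ _ := by
          gcongr
          exact le_add_self

theorem lower (I : Finset Bool) (B : Set ℕ) {s : ℝ} (hs : 0 < s) {f v : ℝ}
    (hf : HasSum (B.indicator fun t => P.r t ^ s) f) (hv : 0 < v) (h1 : 1 ≤ (I.card : ℝ) * v + f)
    (h2 : I.Nonempty → v ≤ (P.α ^ s + ((I.card : ℝ) - 1) * P.δ ^ s) * v + P.δ ^ s * f) :
    ENNReal.ofReal s ≤ dimH (P.ms.J (AI I B)) := by
  classical
  have hr0 : ∀ t, 0 ≤ P.r t ^ s := fun t => Real.rpow_nonneg (P.r_pos t).le _
  have hind0 : ∀ t, 0 ≤ B.indicator (fun t => P.r t ^ s) t := fun t =>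
    indicator_nonneg (fun t _ => hr0 t) t
  have hf0 : 0 ≤ f := hf.nonneg hind0
  have key : ∀ s' : ℝ, 0 < s' → s' < s → ENNReal.ofReal s' ≤ dimH (P.ms.J (AI I B)) := by
    intro s' hs' hss
    obtain ⟨B0, hB0, hf0'⟩ : ∃ B0 : Finset ℕ, (∀ t ∈ B0, t ∈ B) ∧ f ≤ ∑ t ∈ B0, P.r t ^ s' := by
      rcases hf0.eq_or_lt with h0 | h0
      · exact ⟨∅, by simp, by simp [← h0]⟩
      · set κ : ℝ := (64 : ℝ) ^ (s - s') with hκ
        have hκ1 : 1 < κ := Real.one_lt_rpow (by norm_num) (by linarith)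
        have h3 : f / κ < f := by
          rw [div_lt_iff₀ (by linarith)]
          nlinarith
        obtain ⟨T, hT⟩ := ((hf.eventually (lt_mem_nhds h3))).exists
        refine ⟨T.filter (· ∈ B), fun t ht => (Finset.mem_filter.1 ht).2, ?_⟩
        have h4 : ∑ t ∈ T, B.indicator (fun t => P.r t ^ s) t =
            ∑ t ∈ T.filter (· ∈ B), P.r t ^ s := by
          rw [Finset.sum_filter]
          exact Finset.sum_congr rfl fun t _ => by rw [indicator_apply]
        rw [h4, div_lt_iff₀ (by linarith)] at hT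
        refine hT.le.trans ?_
        rw [Finset.sum_mul]
        refine Finset.sum_le_sum fun t _ => ?_
        have h5 := P.r_pos t
        have h6 : P.r t ^ s = P.r t ^ s' * P.r t ^ (s - s') := by
          rw [← Real.rpow_add h5]
          congr 1
          ring
        have h7 : P.r t ^ (s - s') * κ ≤ 1 := by
          rw [hκ, ← Real.mul_rpow h5.le (by norm_num)]
          apply Real.rpow_le_one (by positivity) _ (by linarith)
          have := P.r_le' t
          linarith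
        calc P.r t ^ s * κ = P.r t ^ s' * (P.r t ^ (s - s') * κ) := by rw [h6]; ring
          _ ≤ P.r t ^ s' * 1 := by
            gcongr
          _ = _ := mul_one _
    set f0 : ℝ := ∑ t ∈ B0, P.r t ^ s' with hf0d
    have hαs : P.α ^ s ≤ P.α ^ s' :=
      Real.rpow_le_rpow_of_exponent_ge P.α_pos P.α_lt_one.le hss.le
    have hδs : P.δ ^ s ≤ P.δ ^ s' :=
      Real.rpow_le_rpow_of_exponent_ge P.δ_pos P.δ_lt_one.le hss.le
    have hδ0 := Real.rpow_nonneg P.δ_pos.le s
    have h1' : 1 ≤ (I.card : ℝ) * v + f0 := by linarith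
    have h2' : I.Nonempty → v ≤ (P.α ^ s' + ((I.card : ℝ) - 1) * P.δ ^ s') * v + P.δ ^ s' * f0 := by
      intro hI
      refine (h2 hI).trans ?_
      have h3 : (1 : ℝ) ≤ I.card := by exact_mod_cast Finset.card_pos.2 hI
      have h4 : ((I.card : ℝ) - 1) * P.δ ^ s ≤ ((I.card : ℝ) - 1) * P.δ ^ s' :=
        mul_le_mul_of_nonneg_left hδs (by linarith)
      have h5 : P.δ ^ s * f ≤ P.δ ^ s' * f0 := mul_le_mul hδs hf0' hf0 (hδ0.trans hδs)
      have h6 : (P.α ^ s + ((I.card : ℝ) - 1) * P.δ ^ s) * v ≤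
          (P.α ^ s' + ((I.card : ℝ) - 1) * P.δ ^ s') * v :=
        mul_le_mul_of_nonneg_right (by linarith) hv.le
      linarith
    set V : Al → ℝ := fun e => match e with
      | .inl _ => v
      | .inr t => P.r t ^ s' with hV
    refine P.ms.le_dim (AI I B) (I.disjSum B0) ?_ ?_ hs' V ?_ ?_
    · by_contra hne
      rw [Finset.not_nonempty_iff_eq_empty, Finset.disjSum_eq_empty] at hne
      rw [hf0d, hne.1, hne.2] at h1'
      simp at h1'
      linarith
    · intro e he
      rcases e with i | t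
      · exact inl_mem_AI.2 (Finset.inl_mem_disjSum.1 he)
      · exact inr_mem_AI.2 (hB0 t (Finset.inr_mem_disjSum.1 he))
    · intro e _
      rcases e with i | t
      · exact hv
      · exact Real.rpow_pos_of_pos (P.r_pos t) _
    · intro e he
      rw [Finset.sum_disjSum]
      rcases e with i | t
      · have hi : i ∈ I := Finset.inl_mem_disjSum.1 he
        have e1 : ∑ j ∈ I, P.ms.c (.inl i) (.inl j) ^ s' * V (.inl j) =
            (P.α ^ s' + ((I.card : ℝ) - 1) * P.δ ^ s') * v := by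
          rw [← P.sumI hi (fun y => y ^ s'), Finset.sum_mul]
          rfl
        have e2 : ∑ t ∈ B0, P.ms.c (.inl i) (.inr t) ^ s' * V (.inr t) = P.δ ^ s' * f0 := by
          rw [hf0d, Finset.mul_sum]
          rfl
        rw [e1, e2]
        exact h2' ⟨i, hi⟩
      · have e1 : ∑ j ∈ I, P.ms.c (.inr t) (.inl j) ^ s' * V (.inl j) =
            P.r t ^ s' * (I.card * v) := by
          have : ∀ j ∈ I, P.ms.c (.inr t) (.inl j) ^ s' * V (.inl j) = P.r t ^ s' * v :=
            fun _ _ => rfl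
          rw [Finset.sum_congr rfl this, Finset.sum_const, nsmul_eq_mul]
          ring
        have e2 : ∑ t' ∈ B0, P.ms.c (.inr t) (.inr t') ^ s' * V (.inr t') = P.r t ^ s' * f0 := by
          rw [hf0d, Finset.mul_sum]
          rfl
        rw [e1, e2, ← mul_add]
        show P.r t ^ s' ≤ _
        have := Real.rpow_pos_of_pos (P.r_pos t) s'
        nlinarith
  refine le_of_forall_lt fun x hx => ?_
  have hx' : x ≠ ⊤ := ne_top_of_lt hx
  have h3 : x.toReal < s := by
    rwa [ENNReal.lt_ofReal_iff_toReal_lt hx'] at hx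
  obtain ⟨s', h4, h5⟩ := exists_between (max_lt h3 hs)
  have h6 := key s' ((le_max_right _ _).trans_lt h4) h5
  refine lt_of_lt_of_le ?_ h6
  rw [ENNReal.lt_ofReal_iff_toReal_lt hx']
  exact (le_max_left _ _).trans_lt h4

/-! ### numbers -/

lemma n_pos' : (0 : ℝ) < P.n := by exact_mod_cast P.n_pos

lemma pow_rpow {a : ℝ} (ha : 0 ≤ a) (x : ℝ) : (a ^ P.n) ^ (x / P.n) = a ^ x := by
  rw [← Real.rpow_natCast_mul ha, mul_div_cancel₀ _ P.n_pos'.ne']

lemma α_rpow (x : ℝ) : P.α ^ (x / P.n) = A0 ^ x := P.pow_rpow A0_pos.le x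

lemma δ_rpow (x : ℝ) : P.δ ^ (x / P.n) = D0 ^ x := P.pow_rpow D0_pos.le x

lemma r_rpow (t : ℕ) (x : ℝ) : P.r t ^ (x / P.n) = P.c0 ^ x * (P.σ ^ x) ^ t := by
  have h0 := P.c0_pos
  have h1 := P.σ_pos
  unfold r
  rw [P.pow_rpow (by positivity), Real.mul_rpow h0.le (by positivity)]
  congr 1
  rw [← Real.rpow_natCast, ← Real.rpow_natCast, ← Real.rpow_mul h1.le, ← Real.rpow_mul h1.le,
    mul_comm]

/-- the total weight of the tail -/
noncomputable def F (x : ℝ) : ℝ := P.c0 ^ x * (1 / (1 - P.σ ^ x))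

lemma F_one : P.F 1 = A1 := by
  have := P.σ_lt
  unfold F c0
  rw [Real.rpow_one, Real.rpow_one]
  field_simp [(by linarith : (1 : ℝ) - P.σ ≠ 0)]

lemma F_three : P.F 3 = A2 := by
  have h1 := P.σ_lt
  have h0 := P.σ_pos
  have e3 : (3 : ℝ) = ((3 : ℕ) : ℝ) := by norm_num
  have h2 : P.σ ^ 3 < 1 := pow_lt_one₀ h0.le h1 (by norm_num)
  unfold F c0
  rw [e3, Real.rpow_natCast, Real.rpow_natCast, P.eq]
  have h3 : (1 : ℝ) - P.σ ^ 3 ≠ 0 := by linarith
  field_simp

lemma c0_lt_one : P.c0 < 1 := by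
  have := A1_lt
  have := A1_pos
  have := P.σ_ge
  have := P.σ_lt
  unfold c0
  nlinarith

lemma σ_rpow_lt {x : ℝ} (hx : 0 < x) : P.σ ^ x < 1 := Real.rpow_lt_one P.σ_pos.le P.σ_lt hx

lemma σ_rpow_ge {x : ℝ} (hx : x ≤ 3) : 1 / 2 ≤ P.σ ^ x := by
  have h1 : P.σ ^ (3 : ℝ) ≤ P.σ ^ x := Real.rpow_le_rpow_of_exponent_ge P.σ_pos P.σ_lt.le hx
  have h2 : (4 / 5 : ℝ) ^ (3 : ℕ) ≤ P.σ ^ (3 : ℕ) := pow_le_pow_left₀ (by norm_num) P.σ_ge 3
  have e3 : (3 : ℝ) = ((3 : ℕ) : ℝ) := by norm_num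
  rw [e3, Real.rpow_natCast] at h1
  norm_num at h2
  linarith

lemma F_anti {x y : ℝ} (hx : 0 < x) (hxy : x ≤ y) : P.F y ≤ P.F x := by
  have h1 : P.c0 ^ y ≤ P.c0 ^ x := Real.rpow_le_rpow_of_exponent_ge P.c0_pos P.c0_lt_one.le hxy
  have h2 : P.σ ^ y ≤ P.σ ^ x := Real.rpow_le_rpow_of_exponent_ge P.σ_pos P.σ_lt.le hxy
  have h3 := P.σ_rpow_lt hx
  have h4 : 1 / (1 - P.σ ^ y) ≤ 1 / (1 - P.σ ^ x) :=
    one_div_le_one_div_of_le (by linarith) (by linarith)
  have h5 := Real.rpow_nonneg P.c0_pos.le x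
  have h6 : 0 ≤ 1 / (1 - P.σ ^ y) := by
    apply one_div_nonneg.2
    linarith
  unfold F
  exact mul_le_mul h1 h4 h6 h5

/-- the tail fills intervals -/
lemma exists_B {x y : ℝ} (hx0 : 0 < x) (hx : x ≤ 3) (hy : y ∈ Icc 0 (P.F x)) :
    ∃ B : Set ℕ, HasSum (B.indicator fun t => P.r t ^ (x / P.n)) y := by
  have hc := Real.rpow_pos_of_pos P.c0_pos x
  have h1 : y / P.c0 ^ x ∈ Icc 0 (1 / (1 - P.σ ^ x)) := by
    refine ⟨div_nonneg hy.1 hc.le, ?_⟩
    rw [div_le_iff₀ hc, mul_comm]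
    exact hy.2
  have h2 := (exists_subsum (P.σ_rpow_ge hx) (P.σ_rpow_lt hx0) h1).mul_left (P.c0 ^ x)
  refine ⟨Ch (P.σ ^ x) (y / P.c0 ^ x), ?_⟩
  have e1 : P.c0 ^ x * (y / P.c0 ^ x) = y := mul_div_cancel₀ y hc.ne'
  rw [e1] at h2
  have e2 : ((Ch (P.σ ^ x) (y / P.c0 ^ x)).indicator fun t => P.r t ^ (x / P.n)) = fun t =>
      P.c0 ^ x * (Ch (P.σ ^ x) (y / P.c0 ^ x)).indicator (fun t => (P.σ ^ x) ^ t) t := by
    funext t
    by_cases ht : t ∈ Ch (P.σ ^ x) (y / P.c0 ^ x)
    · rw [indicator_of_mem ht, indicator_of_mem ht, P.r_rpow]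
    · rw [indicator_of_notMem ht, indicator_of_notMem ht, mul_zero]
  rw [e2]
  exact h2

lemma hasSum_univ {x : ℝ} (hx0 : 0 < x) :
    HasSum ((Set.univ : Set ℕ).indicator fun t => P.r t ^ (x / P.n)) (P.F x) := by
  rw [indicator_univ]
  have h1 := (hasSum_geometric_of_lt_one (Real.rpow_nonneg P.σ_pos.le x)
    (P.σ_rpow_lt hx0)).mul_left (P.c0 ^ x)
  rw [← one_div] at h1
  have e2 : (fun t => P.r t ^ (x / P.n)) = fun t => P.c0 ^ x * (P.σ ^ x) ^ t :=
    funext fun t => P.r_rpow t x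
  rw [e2]
  exact h1

/-- the weights which are needed for a given exponent, one of the two special letters -/
noncomputable def f1 (x : ℝ) : ℝ := (1 - A0 ^ x) / (1 - A0 ^ x + D0 ^ x)

/-- the weights which are needed for a given exponent, both special letters -/
noncomputable def f2 (x : ℝ) : ℝ := (1 - A0 ^ x - D0 ^ x) / (1 - A0 ^ x + D0 ^ x)

lemma A0_lt_one : A0 < 1 := by unfold A0; norm_num
lemma D0_lt_one : D0 < 1 := by unfold D0; norm_num

lemma f1_mem {x : ℝ} (hx : 0 < x) : 0 ≤ f1 x ∧ f1 x < 1 := by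
  have h1 : A0 ^ x < 1 := Real.rpow_lt_one A0_pos.le A0_lt_one hx
  have h2 := Real.rpow_pos_of_pos D0_pos x
  unfold f1
  constructor
  · apply div_nonneg <;> linarith
  · rw [div_lt_one (by linarith)]
    linarith

lemma f1_le {x : ℝ} (hx : 0 < x) (hx1 : x ≤ 1) : f1 x ≤ A1 := by
  have h1 : A0 ^ x < 1 := Real.rpow_lt_one A0_pos.le A0_lt_one hx
  have h2 := Real.rpow_pos_of_pos D0_pos x
  have h3 : A0 ^ (1 : ℝ) ≤ A0 ^ x := Real.rpow_le_rpow_of_exponent_ge A0_pos A0_lt_one.le hx1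
  have h4 : D0 ^ (1 : ℝ) ≤ D0 ^ x := Real.rpow_le_rpow_of_exponent_ge D0_pos D0_lt_one.le hx1
  rw [Real.rpow_one] at h3 h4
  have h5 := A0_lt_one
  have h6 := D0_pos
  unfold f1 A1
  rw [div_le_div_iff₀ (by linarith) (by linarith)]
  have h7 : (1 - A0 ^ x) * D0 ≤ (1 - A0) * D0 ^ x :=
    mul_le_mul (by linarith) h4 h6.le (by linarith)
  nlinarith

lemma AD_two : A0 ^ (2 : ℝ) + D0 ^ (2 : ℝ) = 1 := by
  have e : (2 : ℝ) = ((2 : ℕ) : ℝ) := by norm_num
  rw [e, Real.rpow_natCast, Real.rpow_natCast]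
  exact A0_sq

lemma AD_le {x : ℝ} (hx : 2 ≤ x) : A0 ^ x + D0 ^ x ≤ 1 := by
  rw [← AD_two]
  exact add_le_add (Real.rpow_le_rpow_of_exponent_ge A0_pos A0_lt_one.le hx)
    (Real.rpow_le_rpow_of_exponent_ge D0_pos D0_lt_one.le hx)

lemma f2_mem {x : ℝ} (hx : 2 ≤ x) : 0 ≤ f2 x ∧ f2 x < 1 := by
  have h1 := AD_le hx
  have h2 := Real.rpow_pos_of_pos D0_pos x
  unfold f2
  constructor
  · apply div_nonneg <;> linarith
  · rw [div_lt_one (by linarith)]
    linarith

lemma f2_le {x : ℝ} (hx : 2 ≤ x) (hx1 : x ≤ 3) : f2 x ≤ A2 := by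
  have h1 := AD_le hx
  have h1' := AD_le (show (2 : ℝ) ≤ 3 by norm_num)
  have h2 := Real.rpow_pos_of_pos D0_pos x
  have h3 : A0 ^ (3 : ℝ) ≤ A0 ^ x := Real.rpow_le_rpow_of_exponent_ge A0_pos A0_lt_one.le hx1
  have h4 : D0 ^ (3 : ℝ) ≤ D0 ^ x := Real.rpow_le_rpow_of_exponent_ge D0_pos D0_lt_one.le hx1
  have e : (3 : ℝ) = ((3 : ℕ) : ℝ) := by norm_num
  rw [e, Real.rpow_natCast] at h3 h4
  rw [e, Real.rpow_natCast, Real.rpow_natCast] at h1'
  have h6 : 0 < D0 ^ 3 := pow_pos D0_pos 3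
  unfold f2 A2
  rw [div_le_div_iff₀ (by linarith) (by linarith)]
  have h7 : (1 - A0 ^ x - D0 ^ x) * D0 ^ 3 ≤ (1 - A0 ^ 3 - D0 ^ 3) * D0 ^ x :=
    mul_le_mul (by linarith) h4 h6.le (by linarith)
  nlinarith

lemma f1_one : f1 1 = A1 := by unfold f1 A1; rw [Real.rpow_one, Real.rpow_one]

lemma f2_three : f2 3 = A2 := by
  have e : (3 : ℝ) = ((3 : ℕ) : ℝ) := by norm_num
  unfold f2 A2
  rw [e, Real.rpow_natCast, Real.rpow_natCast]

lemma eq1 {x : ℝ} (hx : 0 < x) : A0 ^ x * (1 - f1 x) + D0 ^ x * f1 x = 1 - f1 x := by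
  have h1 : A0 ^ x < 1 := Real.rpow_lt_one A0_pos.le A0_lt_one hx
  have h2 := Real.rpow_pos_of_pos D0_pos x
  have h3 : 1 - A0 ^ x + D0 ^ x ≠ 0 := by linarith
  unfold f1
  field_simp
  ring

lemma eq2 {x : ℝ} (hx : 2 ≤ x) :
    (A0 ^ x + D0 ^ x) * ((1 - f2 x) / 2) + D0 ^ x * f2 x = (1 - f2 x) / 2 := by
  have h1 := AD_le hx
  have h2 := Real.rpow_pos_of_pos D0_pos x
  have h3 : 1 - A0 ^ x + D0 ^ x ≠ 0 := by linarith
  unfold f2
  field_simp
  ring

/-- dimension with one special letter -/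
theorem dim1 (i : Bool) (B : Set ℕ) {x : ℝ} (hx : 0 < x)
    (hB : HasSum (B.indicator fun t => P.r t ^ (x / P.n)) (f1 x)) :
    dimH (P.ms.J (AI {i} B)) = ENNReal.ofReal (x / P.n) := by
  have hs : 0 < x / P.n := div_pos hx P.n_pos'
  have h1 := (f1_mem hx).2
  have h2 := eq1 hx
  apply le_antisymm
  · refine P.upper {i} B hs hB (v := 1 - f1 x) (by linarith) ?_ fun _ => ?_
    · simp
    · rw [P.α_rpow, P.δ_rpow]
      simp only [Finset.card_singleton, Nat.cast_one, sub_self, zero_mul, add_zero]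
      exact h2.le
  · refine P.lower {i} B hs hB (v := 1 - f1 x) (by linarith) ?_ fun _ => ?_
    · simp
    · rw [P.α_rpow, P.δ_rpow]
      simp only [Finset.card_singleton, Nat.cast_one, sub_self, zero_mul, add_zero]
      exact h2.ge

/-- dimension with both special letters -/
theorem dim2 (B : Set ℕ) {x : ℝ} (hx : 2 ≤ x)
    (hB : HasSum (B.indicator fun t => P.r t ^ (x / P.n)) (f2 x)) :
    dimH (P.ms.J (AI Finset.univ B)) = ENNReal.ofReal (x / P.n) := by
  have hs : 0 < x / P.n := div_pos (by linarith) P.n_pos'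
  have h1 := (f2_mem hx).2
  have h2 := eq2 hx
  have hc : ((Finset.univ : Finset Bool).card : ℝ) = 2 := by simp
  apply le_antisymm
  · refine P.upper _ B hs hB (v := (1 - f2 x) / 2) (by linarith) ?_ fun _ => ?_
    · rw [hc]; linarith
    · rw [P.α_rpow, P.δ_rpow, hc]
      norm_num
      linarith
  · refine P.lower _ B hs hB (v := (1 - f2 x) / 2) (by linarith) ?_ fun _ => ?_
    · rw [hc]; linarith
    · rw [P.α_rpow, P.δ_rpow, hc]
      norm_num
      linarith

lemma dim1_univ (i : Bool) : dimH (P.ms.J (AI {i} univ)) = ENNReal.ofReal (1 / P.n) := by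
  refine P.dim1 i univ one_pos ?_
  rw [f1_one, ← P.F_one]
  exact P.hasSum_univ one_pos

lemma dim2_univ : dimH (P.ms.J (AI Finset.univ univ)) = ENNReal.ofReal (3 / P.n) := by
  refine P.dim2 univ (by norm_num) ?_
  rw [f2_three, ← P.F_three]
  exact P.hasSum_univ (by norm_num)

lemma f2_two : f2 2 = 0 := by
  unfold f2
  have := AD_two
  rw [div_eq_zero_iff]
  left
  linarith

lemma dim2_empty : dimH (P.ms.J (AI Finset.univ ∅)) = ENNReal.ofReal (2 / P.n) := by
  refine P.dim2 ∅ (le_refl _) ?_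
  rw [f2_two, indicator_empty]
  exact hasSum_zero

lemma dim_le_three (A : Set Al) : dimH (P.ms.J A) ≤ ENNReal.ofReal (3 / P.n) := by
  rw [← P.dim2_univ]
  refine dimH_mono (P.ms.J_mono ?_)
  rintro (i | t) _
  · exact inl_mem_AI.2 (Finset.mem_univ _)
  · exact inr_mem_AI.2 (mem_univ _)

/-- the spectrum -/
theorem spectrum_eq : P.cifs.spectrum = Icc 0 (1 / (P.n : ℝ)) ∪ Icc (2 / (P.n : ℝ)) (3 / P.n) := by
  have hn := P.n_pos'
  have hfin : ∀ A, dimH (P.ms.J A) ≠ ⊤ := fun A =>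
    ne_top_of_le_ne_top ENNReal.ofReal_ne_top (P.dim_le_three A)
  ext y
  constructor
  · rintro ⟨A, rfl⟩
    rw [P.limitSet_eq]
    by_cases hA : ∀ i, (Sum.inl i : Al) ∈ A
    · right
      constructor
      · have h1 : AI Finset.univ ∅ ⊆ A := by
          rintro (i | t) h
          · exact hA i
          · exact absurd (inr_mem_AI.1 h) (by simp)
        have h2 := dimH_mono (P.ms.J_mono h1)
        rw [P.dim2_empty] at h2
        have h3 := ENNReal.toReal_mono (hfin A) h2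
        rwa [ENNReal.toReal_ofReal (by positivity)] at h3
      · have h3 := ENNReal.toReal_mono ENNReal.ofReal_ne_top (P.dim_le_three A)
        rwa [ENNReal.toReal_ofReal (by positivity)] at h3
    · left
      push Not at hA
      obtain ⟨i, hi⟩ := hA
      refine ⟨ENNReal.toReal_nonneg, ?_⟩
      have h1 : A ⊆ AI {!i} univ := by
        rintro (j | t) h
        · refine inl_mem_AI.2 ?_
          rw [Finset.mem_singleton]
          have : j ≠ i := by
            rintro rfl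
            exact hi h
          revert this
          cases j <;> cases i <;> simp
        · exact inr_mem_AI.2 (mem_univ _)
      have h2 := dimH_mono (P.ms.J_mono h1)
      rw [P.dim1_univ] at h2
      have h3 := ENNReal.toReal_mono ENNReal.ofReal_ne_top h2
      rwa [ENNReal.toReal_ofReal (by positivity)] at h3
  · rintro (hy | hy)
    · rcases hy.1.eq_or_lt with h0 | h0
      · refine ⟨∅, ?_⟩
        rw [P.limitSet_eq]
        have h1 : P.ms.J ∅ = ∅ := by
          rw [Set.eq_empty_iff_forall_notMem]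
          rintro _ ⟨ω, h, _⟩
          exact h 0
        rw [h1, dimH_empty, ENNReal.toReal_zero]
        exact h0.symm
      · set x : ℝ := y * P.n with hx
        have hx0 : 0 < x := by positivity
        have hx1 : x ≤ 1 := by
          have := hy.2
          rw [le_div_iff₀ hn] at this
          exact this
        have hyx : y = x / P.n := by rw [hx]; field_simp
        obtain ⟨B, hB⟩ := P.exists_B hx0 (by linarith) (y := f1 x) ⟨(f1_mem hx0).1,
          (f1_le hx0 hx1).trans (by rw [← P.F_one]; exact P.F_anti hx0 hx1)⟩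
        refine ⟨AI {false} B, ?_⟩
        rw [P.limitSet_eq, P.dim1 false B hx0 hB, ENNReal.toReal_ofReal (by positivity), ← hyx]
    · set x : ℝ := y * P.n with hx
      have hx1 : x ≤ 3 := by
        have := hy.2
        rw [le_div_iff₀ hn] at this
        exact this
      have hx2 : 2 ≤ x := by
        have := hy.1
        rw [div_le_iff₀ hn] at this
        exact this
      have hx0 : 0 < x := by linarith
      have hyx : y = x / P.n := by rw [hx]; field_simp
      obtain ⟨B, hB⟩ := P.exists_B hx0 hx1 (y := f2 x) ⟨(f2_mem hx2).1,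
        (f2_le hx2 hx1).trans (by rw [← P.F_three]; exact P.F_anti hx0 hx1)⟩
      refine ⟨AI Finset.univ B, ?_⟩
      rw [P.limitSet_eq, P.dim2 B hx2 hB, ENNReal.toReal_ofReal (by positivity), ← hyx]

end Par

end Pool.Agent.Q187.Mir
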